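import Pool.Agent.MP_542436_nt.Sp.Defs

set_option autoImplicit false

namespace Pool.Agent.MP_542436_nt.Sp

open Polynomial NumberField Finset

/-- ROW S1. Basic facts on bivariate polynomials and the weighted order. -/
structure BaseStmt : Prop where
  dS_mul : ∀ (R : Type) [CommRing R] [IsDomain R] (f g : R[X][X]), f ≠ 0 → g ≠ 0 →
    dS (f * g) = dS f + dS g
  dg_iff : ∀ (R : Type) [CommRing R] (m n : ℕ) (f : R[X][X]),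
    Dg (m + 1) (n + 1) f ↔ dS f ≤ m ∧ f.natDegree ≤ n
  dg_zero : ∀ (R : Type) [CommRing R] (M N : ℕ) (f : R[X][X]), M = 0 ∨ N = 0 → Dg M N f → f = 0
  coeff_ds : ∀ (R : Type) [CommRing R] (f : R[X][X]) (k : ℕ),
    (ds f).coeff k = derivative (f.coeff k)
  ds_mul : ∀ (R : Type) [CommRing R] (f g : R[X][X]), ds (f * g) = ds f * g + f * ds g
  cf_up : ∀ (L : Type) [CommRing L] (f : ℤ[X][X]) (i k : ℕ), cf (up L f) i k = ((cf f i k : ℤ) : L)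
  up_ds : ∀ (L : Type) [CommRing L] (f : ℤ[X][X]), up L (ds f) = ds (up L f)
  up_map : ∀ (L L' : Type) [CommRing L] [CommRing L'] (σ : L →+* L') (f : ℤ[X][X]),
    (up L f).map (mapRingHom σ) = up L' f
  hval_eq : ∀ (L : Type) [Field L] (m n : ℕ) (f : ℤ[X][X]) (x y a b : ℤ), Dg (m + 1) (n + 1) f →
    (y : L) ≠ 0 → (b : L) ≠ 0 → ((hval m n f x y a b : ℤ) : L) =
      (y : L) ^ m * (b : L) ^ n * (up L f).evalEval ((x : L) / y) ((a : L) / b)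
  ord_mono : ∀ (R : Type) [CommRing R] (ω θ : R) (r r' : ℕ) (f : R[X][X]), r' ≤ r →
    Ord ω θ r f → Ord ω θ r' f
  ord_sub : ∀ (R : Type) [CommRing R] (ω θ : R) (r : ℕ) (f g : R[X][X]),
    Ord ω θ r f → Ord ω θ r g → Ord ω θ r (f - g)
  ord_mul : ∀ (R : Type) [CommRing R] (ω θ : R) (r r' : ℕ) (f g : R[X][X]),
    Ord ω θ r f → Ord ω θ r' g → Ord ω θ (r + r') (f * g)
  ord_cancel : ∀ (L : Type) [Field L] (ω θ : L) (r r' : ℕ) (g h : L[X][X]),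
    Ord ω θ r' g → ¬ Ord ω θ (r' + 1) g → Ord ω θ r (g * h) → Ord ω θ (r - r') h
  ord_exact : ∀ (L : Type) [Field L] (ω θ : L) (g : L[X][X]), g ≠ 0 →
    ∃ r, Ord ω θ r g ∧ ¬ Ord ω θ (r + 1) g
  ord_ds : ∀ (R : Type) [CommRing R] (ω θ : R) (r : ℕ) (f : R[X][X]),
    Ord ω θ r f → Ord ω θ (r - 1) (ds f)
  ord_map : ∀ (L L' : Type) [CommRing L] [CommRing L'] (σ : L →+* L') (ω θ : L) (r : ℕ)
    (f : L[X][X]), Ord ω θ r f → Ord (σ ω) (σ θ) r (f.map (mapRingHom σ))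
  ord_iff : ∀ (R : Type) [CommRing R] (M N : ℕ) (ω θ : R) (r : ℕ) (f : R[X][X]), Dg M N f →
    (Ord ω θ r f ↔ ∀ i j, i + 2 * j < r → tc M N ω θ f i j = 0)
  expand : ∀ (R : Type) [CommRing R] (M N : ℕ) (ω θ s t : R) (f : R[X][X]), Dg M N f →
    f.evalEval s t =
      ∑ i ∈ range M, ∑ j ∈ range N, tc M N ω θ f i j * (s - ω) ^ i * (t - θ) ^ j

/-- ROW S2. Places, norms, coordinates. -/
structure PlcStmt : Prop where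
  int_le : ∀ (K : Type) [Field K] (p : ℕ) (v : AbsoluteValue K ℝ) (α : K), Plc p v →
    IsIntegral ℤ α → v α ≤ 1
  dvd_of : ∀ (K : Type) [Field K] (p : ℕ) (v : AbsoluteValue K ℝ) (n : ℤ) (k : ℕ), Plc p v →
    v (n : K) ≤ 1 / (p : ℝ) ^ k → (p : ℤ) ^ k ∣ n
  unit_of : ∀ (K : Type) [Field K] (p : ℕ) (v : AbsoluteValue K ℝ) (n : ℤ), Plc p v →
    ¬ (p : ℤ) ∣ n → v (n : K) = 1
  norm : ∀ (K : Type) [Field K] [NumberField K] (α : K), IsIntegral ℤ α → α ≠ 0 →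
    ∃ N : ℤ, N ≠ 0 ∧ |(N : ℝ)| ≤ house α ^ Module.finrank ℚ K ∧
      ∀ (p : ℕ) (v : AbsoluteValue K ℝ), Plc p v → v (N : K) ≤ v α ∧ (v α < 1 → (p : ℤ) ∣ N)
  gen : ∀ (K : Type) [Field K] [NumberField K] (ω : K), Module.finrank ℚ K = 7 →
    (∀ q : ℚ, ω ≠ (q : K)) → Gen ω
  el_int : ∀ (K : Type) [Field K] [NumberField K] (d : ℕ) (θ : K) (c : Fin d → ℤ), St d θ →
    IsIntegral ℤ (el θ c)
  el_inj : ∀ (K : Type) [Field K] [NumberField K] (d : ℕ) (θ : K) (c : Fin d → ℤ), St d θ →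
    el θ c = 0 → c = 0
  el_le : ∀ (K : Type) [Field K] [NumberField K] (d : ℕ) (θ : K), ∃ C : ℝ, 1 ≤ C ∧
    ∀ (c : Fin d → ℤ) (N : ℝ), 0 ≤ N → (∀ i, |(c i : ℝ)| ≤ N) → house (el θ c) ≤ C * N
  minp : ∀ (K : Type) [Field K] [NumberField K] (d : ℕ) (θ : K), St d θ →
    (minpoly ℤ θ).natDegree = d ∧ (minpoly ℚ θ).natDegree = d

/-- ROW S3a. A large prime whose square divides the form gives a place. -/
def HenselStmt : Prop :=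
  ∀ (K : Type) [Field K] [NumberField K] (d : ℕ) (θ : K), St d θ → ∃ p1 : ℕ, ∀ p : ℕ, p.Prime →
    p1 ≤ p → ∀ a b : ℤ, Int.gcd a b = 1 → (p : ℤ) ^ 2 ∣ H5.hv (minpoly ℤ θ) d (a, b) →
      ∃ v : AbsoluteValue K ℝ, Plc p v ∧ v ((a : K) - θ * b) ≤ 1 / (p : ℝ) ^ 2

/-- ROW S3b. If the prime divides a given integer there are boundedly many pairs. -/
def FewDivStmt : Prop :=
  ∀ (K : Type) [Field K] [NumberField K] (d : ℕ) (θ : K), St d θ → ∀ c : ℕ, ∃ C X0 : ℝ,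
    ∀ X : ℝ, X0 ≤ X → ∀ N : ℤ, N ≠ 0 → |(N : ℝ)| ≤ X ^ c →
      FewPt (fun Q : Pt K => Sq θ X Q.a Q.b Q.p Q.v ∧ X ^ ((3 : ℝ) / 2) ≤ Q.p ∧ (Q.p : ℤ) ∣ N) C

/-- ROW S4a. Values of polynomials of order `r` are divisible by `p ^ r`. -/
def PDivStmt : Prop :=
  ∀ (K : Type) [Field K] [NumberField K] (d : ℕ) (θ ω : K), St d θ →
    ∀ (X A B p0 : ℝ) (Q : Pt K), Inc θ ω X A B p0 Q → ∀ (m n r : ℕ) (f : ℤ[X][X]),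
      Dg (m + 1) (n + 1) f → Ord ω θ r (up K f) → (Q.p : ℤ) ^ r ∣ Q.val m n f

/-- ROW S4b. Curves of order at most 1. -/
def LowStmt : Prop :=
  ∀ (K : Type) [Field K] [NumberField K] (d : ℕ) (θ : K), St d θ → ∀ M c : ℕ, ∃ (c' : ℕ) (X0 : ℝ),
    ∀ X : ℝ, X0 ≤ X → ∀ (ω ζ0 ζ1 : K) (A B T : ℝ), 1 ≤ A → 1 ≤ B → T ≤ X ^ c →
      Rep ω A B T ζ0 ζ1 → ∀ (m n : ℕ) (g : ℤ[X][X]), m ≤ M → n ≤ M → Dg (m + 1) (n + 1) g →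
        (∀ i k, |((cf g i k : ℤ) : ℝ)| ≤ X ^ c) → ¬ Ord ω θ 2 (up K g) →
        ∃ N : ℤ, N ≠ 0 ∧ |(N : ℝ)| ≤ X ^ c' ∧ ∀ (p0 : ℝ) (Q : Pt K), Inc θ ω X A B p0 Q →
          Q.val m n g = 0 → (Q.p : ℤ) ∣ N

/-- ROW S4c. The trivial bound on a line. -/
def TrivStmt : Prop :=
  ∀ (K : Type) [Field K] [NumberField K] (d : ℕ) (θ : K), St d θ → ∀ c : ℕ, ∃ C X0 : ℝ,
    ∀ X : ℝ, X0 ≤ X → ∀ (ω ζ0 ζ1 : K) (A B T p0 : ℝ), 1 ≤ A → 1 ≤ B → T ≤ X ^ c →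
      Rep ω A B T ζ0 ζ1 → (∀ q : ℚ, ω ≠ (q : K)) → X ^ ((3 : ℝ) / 2) ≤ p0 →
      FewPt (Inc θ ω X A B p0) (C * (A * B))

/-- ROW S5. Many small auxiliary polynomials (pigeonhole). -/
def SiegelStmt : Prop :=
  ∀ (K : Type) [Field K] [NumberField K] (d : ℕ) (θ : K), St d θ → ∀ m n r : ℕ, r ≤ m →
    ∃ c : ℝ, 0 < c ∧ ∀ X : ℝ, 1 < X → ∀ x1 x2 t w : ℝ, 0 ≤ x2 → x2 ≤ x1 → m * x1 ≤ w →
      ∀ ω ζ0 ζ1 : K, Rep ω (X ^ x1) (X ^ x2) (X ^ t) ζ0 ζ1 →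
        ∃ S : Finset ℤ[X][X], c * X ^ lhs d m n r x1 x2 t w ≤ S.card ∧
          ∀ f ∈ S, Dg (m + 1) (n + 1) f ∧ Ord ω θ r (up K f) ∧ Nb m (X ^ x1) (X ^ x2) (X ^ w) f

/-- ROW S9b. An irreducible curve that is not a fibre does not contain a fibre. -/
def NzStmt : Prop :=
  ∀ (K : Type) [Field K] [NumberField K] (g : ℤ[X][X]), Irreducible g → ∀ α : K,
    (1 ≤ dS g → (up K g).eval (C α) ≠ 0) ∧
    (1 ≤ g.natDegree → (up K g).map (evalRingHom α) ≠ 0)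

/-- ROW S6. A small representation of `ω`, and the height of curves of order `r`. -/
def HeightStmt : Prop :=
  ∀ (K : Type) [Field K] [NumberField K] (θ : K), IsIntegral ℤ θ → ∀ M : ℕ, ∃ C : ℝ, 1 ≤ C ∧
    ∀ (A B T : ℝ) (ω ζ0 ζ1 : K), 0 < B → B ≤ A → Rep ω A B T ζ0 ζ1 →
      ∃ (T' : ℝ) (ζ0' ζ1' : K), Rep ω A B T' ζ0' ζ1' ∧ T' ≤ C * T ∧
        ∀ (m n r : ℕ) (g : ℤ[X][X]), m ≤ M → n ≤ M → Dg (m + 1) (n + 1) g →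
          (up K g).eval (Polynomial.C θ) ≠ 0 → Ord ω θ r (up K g) →
          ∃ i k, i ≤ m ∧ T' ^ r * B ^ (m - r) ≤ C * (|((cf g i k : ℤ) : ℝ)| * A ^ i * B ^ (m - i))

/-- ROW S7. Size of values and of factors. -/
structure ValStmt : Prop where
  val : ∀ (m n : ℕ) (h : ℤ[X][X]) (A B W X : ℝ) (x y a b : ℤ), Nb m A B W h →
    |(x : ℝ)| ≤ A → |(y : ℝ)| ≤ B → |(a : ℝ)| ≤ X → |(b : ℝ)| ≤ X →
    |((hval m n h x y a b : ℤ) : ℝ)| ≤ (m + 1) * (n + 1) * W * X ^ n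
  der : ∀ (m n j m1 n1 : ℕ) (g h : ℤ[X][X]) (A B W X : ℝ) (x y a b : ℤ), 1 ≤ m1 → j * m1 ≤ m →
    j * n1 ≤ n → Dg (m1 + 1) (n1 + 1) g → Dg (m - j * m1 + 1) (n - j * n1 + 1) h →
    Nb m A B W (g ^ j * h) → 0 < A → |(x : ℝ)| ≤ A → |(y : ℝ)| ≤ B → |(a : ℝ)| ≤ X →
    |(b : ℝ)| ≤ X → y ≠ 0 → b ≠ 0 → hval m1 n1 g x y a b = 0 →
    |((hval (m - j * m1) (n - j * n1) h x y a b : ℤ) : ℝ)| *
        |((hval (m1 - 1) n1 (ds g) x y a b : ℤ) : ℝ)| ^ j * A ^ j ≤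
      (m + 1) * (n + 1) * 2 ^ m * W * X ^ n
  gel : ∀ M : ℕ, ∃ C : ℝ, 1 ≤ C ∧ ∀ (j m1 n1 m2 n2 : ℕ) (g h : ℤ[X][X]) (A B W : ℝ),
    j * m1 + m2 ≤ M → j * n1 + n2 ≤ M → j ≤ M → Dg (m1 + 1) (n1 + 1) g → Dg (m2 + 1) (n2 + 1) h →
    0 < A → 0 < B → Nb (j * m1 + m2) A B W (g ^ j * h) → ∀ i k i' k', i ≤ m1 → i' ≤ m2 →
      (|((cf g i k : ℤ) : ℝ)| * A ^ i * B ^ (m1 - i)) ^ j *
        (|((cf h i' k' : ℤ) : ℝ)| * A ^ i' * B ^ (m2 - i')) ≤ C * W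

/-- ROW S8a. The `q`-adic Schwarz lemma on a residue class of a curve. -/
def SchwStmt : Prop :=
  ∀ (q : ℕ), q.Prime → ∀ (m1 n1 m n k : ℕ) (g h : ℤ[X][X]) (x y a b : ℕ → ℤ), 1 ≤ m1 →
    Dg (m1 + 1) (n1 + 1) g → Dg (m + 1) (n + 1) h →
    (∀ i, i ≤ k → ¬ (q : ℤ) ∣ y i * b i * hval (m1 - 1) n1 (ds g) (x i) (y i) (a i) (b i) ∧
      (q : ℤ) ∣ x i * y 0 - x 0 * y i ∧ (q : ℤ) ∣ a i * b 0 - a 0 * b i ∧
      hval m1 n1 g (x i) (y i) (a i) (b i) = 0) →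
    (∀ i j, i < j → j ≤ k → a i * b j ≠ a j * b i) →
    (∀ i, i < k → hval m n h (x i) (y i) (a i) (b i) = 0) →
    (q : ℤ) ^ k ∣ hval m n h (x k) (y k) (a k) (b k)

/-- ROW S8b. The number of nonsingular residue classes. -/
def ClassesStmt : Prop :=
  ∀ (q : ℕ), q.Prime → ∀ (m1 n1 : ℕ) (g : ℤ[X][X]) (ι : Type) (x y a b : ι → ℤ) (E : Finset ι),
    1 ≤ m1 → Dg (m1 + 1) (n1 + 1) g →
    (∀ i ∈ E, ¬ (q : ℤ) ∣ y i * b i * hval (m1 - 1) n1 (ds g) (x i) (y i) (a i) (b i) ∧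
      hval m1 n1 g (x i) (y i) (a i) (b i) = 0) →
    ∃ E' : Finset ι, E' ⊆ E ∧ E.card ≤ m1 * q * E'.card ∧ ∀ i ∈ E', ∀ j ∈ E',
      (q : ℤ) ∣ x i * y j - x j * y i ∧ (q : ℤ) ∣ a i * b j - a j * b i

/-- ROW S9a. A crude Bezout bound. -/
def BezStmt : Prop :=
  ∀ (m1 n1 m n : ℕ) (g h : ℤ[X][X]), Irreducible g → 1 ≤ g.natDegree → Dg (m1 + 1) (n1 + 1) g →
    Dg (m + 1) (n + 1) h → ¬ g ∣ h → ∀ E : Finset (ℚ × ℚ),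
      (∀ e ∈ E, (up ℚ g).evalEval e.1 e.2 = 0 ∧ (up ℚ h).evalEval e.1 e.2 = 0) →
      E.card ≤ n1 * (m * n1 + m1 * n)

/-- ROW S9c. Irreducible components. -/
def FactorStmt : Prop :=
  ∀ (m n : ℕ) (f : ℤ[X][X]), f ≠ 0 → Dg (m + 1) (n + 1) f → ∃ L : Finset ℤ[X][X],
    L.card ≤ m + n ∧ (∀ g ∈ L, Irreducible g ∧ g ∣ f) ∧
      ∀ s t : ℚ, (up ℚ f).evalEval s t = 0 → ∃ g ∈ L, (up ℚ g).evalEval s t = 0

/-- ROW S10. The zero estimate. -/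
def ZeroStmt : Prop :=
  ∀ (K : Type) [Field K] [NumberField K] (d : ℕ) (θ ω : K), St d θ → Gen ω →
    ∀ (g : ℤ[X][X]) (r : ℕ), Irreducible g → 1 ≤ dS g → 2 ≤ r → Ord ω θ r (up K g) →
      1 ≤ g.natDegree ∧ r ≤ dS g ∧ r ≤ 2 * g.natDegree ∧
        (g.natDegree ≤ 5 → d * (r * (r - 1)) ≤ 4 * ((dS g - 1) * g.natDegree))

open Classical in
/-- ROW S11a. Restriction to vertical and horizontal fibres. -/
structure HorStmt : Prop where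
  fin : ∀ (ι : Type) (M N : ℕ) (r : ι → ℕ) (ω θ : ι → ℂ), Module.Finite ℂ (Vs M N r ω θ)
  triv : ∀ (ι : Type) (M N : ℕ) (r : ι → ℕ) (ω θ : ι → ℂ),
    Module.finrank ℂ (Vs M N r ω θ) ≤ M * N
  mono : ∀ (ι : Type) (M N : ℕ) (r r' : ι → ℕ) (ω θ : ι → ℂ), (∀ i, r' i ≤ r i) →
    Module.finrank ℂ (Vs M N r ω θ) ≤ Module.finrank ℂ (Vs M N r' ω θ)
  vert : ∀ (ι : Type) [Fintype ι] (M N : ℕ) (r : ι → ℕ) (ω θ : ι → ℂ) (a : ℂ),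
    Function.Injective θ → Module.finrank ℂ (Vs (M + 1) N r ω θ) ≤
      (N - ∑ i, if ω i = a then (r i + 1) / 2 else 0) +
        Module.finrank ℂ (Vs M N (fun i => if ω i = a then r i - 1 else r i) ω θ)
  hor : ∀ (ι : Type) (M N : ℕ) (r : ι → ℕ) (ω θ : ι → ℂ) (i0 : ι),
    Function.Injective θ → Module.finrank ℂ (Vs M (N + 1) r ω θ) ≤
      (M - r i0) + Module.finrank ℂ (Vs M N (fun i => if i = i0 then r i - 2 else r i) ω θ)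

/-- ROW S11b. The dimension bound. -/
def CapStmt : Prop :=
  ∀ (K : Type) [Field K] [NumberField K] (d : ℕ) (θ ω : K), St d θ → Gen ω →
    ∀ (M N r k : ℕ) (f : Fin k → ℤ[X][X]), LinearIndependent ℤ f →
      (∀ i, Dg M N (f i) ∧ Ord ω θ r (up K (f i))) → k ≤ capG d M N r

/-- ROW S12a. Injectivity of a matrix is an open condition. -/
def InjStmt : Prop :=
  ∀ (S : Type) [CommRing S] [Algebra ℂ S] (ρ κ : Type) [Fintype ρ] [Fintype κ]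
    (A : Matrix ρ κ S) (e0 : S →ₐ[ℂ] ℂ), Function.Injective (A.map e0).mulVec →
    ∃ Δ : S, e0 Δ ≠ 0 ∧ ∀ e : S →ₐ[ℂ] ℂ, e Δ ≠ 0 → Function.Injective (A.map e).mulVec

/-- ROW S12b. Examples of positions with few curves. -/
def ExStmt : Prop :=
  ∀ θ : Fin 7 → ℂ, Function.Injective θ →
    (∀ c ∈ list0, ∃ ω : Fin 7 → ℂ, Vs (c.1 + 1) (c.2.1 + 1) (fun _ => c.2.2) ω θ = ⊥) ∧
    ∃ ω : Fin 7 → ℂ, Module.finrank ℂ (Vs 5 3 (fun _ => 2) ω θ) ≤ 1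

open Classical in
/-- ROW S13a. Zeros of a polynomial in a box of pairs. -/
def SZStmt : Prop :=
  ∀ (d : ℕ) (Δ : MvPolynomial (Fin 2 × Fin d) ℂ), Δ ≠ 0 → ∃ C : ℝ, 0 ≤ C ∧
    ∀ (i0 : Fin d) (N0 N1 : ℕ), 1 ≤ N0 → N0 ≤ N1 →
      (((pbox d i0 N0 N1).filter
        (fun u => MvPolynomial.eval (fun k => ((u k : ℤ) : ℂ)) Δ = 0)).card : ℝ) ≤
        C * ((N0 : ℝ) ^ d * (N1 : ℝ) ^ (d - 1))

open Classical in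
/-- ROW S13b. The first exceptional set is small. -/
def Rare0Stmt : Prop :=
  ∀ (K : Type) [Field K] [NumberField K] (d : ℕ) (θ : K), St d θ → ∃ C : ℝ, 0 ≤ C ∧
    ∀ (i0 : Fin d) (N0 N1 : ℕ), 1 ≤ N0 → N0 ≤ N1 →
      (((pbox d i0 N0 N1).filter (fun u => z0 θ u ≠ 0 ∧ Bad0 d θ (om θ u))).card : ℝ) ≤
        C * ((N0 : ℝ) ^ d * (N1 : ℝ) ^ (d - 1))

/-- ROW S14. Few `y` have `P y = T * g` with `g` small. -/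
def ContStmt : Prop :=
  ∀ (D : ℕ) (c : ℤ), 1 ≤ D → c ≠ 0 → ∃ C : ℝ, 0 ≤ C ∧ ∀ (P : ℤ[X]) (T : ℤ) (G : ℝ) (Y : Finset ℤ),
    P.natDegree ≤ D → P.coeff D = c → T ≠ 0 → 1 ≤ G →
    (∀ y ∈ Y, T ∣ P.eval y ∧ |((P.eval y : ℤ) : ℝ)| ≤ |(T : ℝ)| * G) →
    (Y.card : ℝ) ≤ C * (D : ℝ) ^ T.natAbs.primeFactors.card * G ^ ((1 : ℝ) / D)

/-- The equations for a curve of bidegree `(4, 2)` with a double zero on the fibre `t = θ`. -/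
def KerEq {S : Type} [CommRing S] (θ ζ0 ζ1 : S) (φ : Fin 5 × Fin 3 → S) : Prop :=
  ∀ i : ℕ, i < 2 → ∑ k : Fin 5 × Fin 3, φ k * (((k.1 : ℕ).choose i : S) *
    (-ζ1) ^ ((k.1 : ℕ) - i) * ζ0 ^ (4 - (k.1 : ℕ))) * θ ^ (k.2 : ℕ) = 0

/-- The generic vectors of a pair. -/
noncomputable def zz {K : Type} [Field K] (θ : K) (e : Fin 2) : MvPolynomial (Fin 2 × Fin 7) K :=
  ∑ i : Fin 7, MvPolynomial.X (e, i) * MvPolynomial.C (θ ^ (i : ℕ))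

/-- Polynomial solutions of the equations. -/
def KerP {K : Type} [Field K] (θ : K) (Φ : Fin 5 × Fin 3 → MvPolynomial (Fin 2 × Fin 7) ℤ) : Prop :=
  KerEq (MvPolynomial.C θ) (zz θ 0) (zz θ 1) (fun k => MvPolynomial.map (Int.castRingHom K) (Φ k))

/-- ROW S15a. Existence of a polynomial solution, and generic uniqueness. -/
def KerAStmt : Prop :=
  ∀ (K : Type) [Field K] [NumberField K] (θ : K), St 7 θ → (∃ Φ, Φ ≠ 0 ∧ KerP θ Φ) ∧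
    ∃ Δ : MvPolynomial (Fin 2 × Fin 7) ℂ, Δ ≠ 0 ∧ ∀ u : Fin 2 × Fin 7 → ℤ,
      MvPolynomial.eval (fun k => ((u k : ℤ) : ℂ)) Δ ≠ 0 → ∀ φ ψ : Fin 5 × Fin 3 → ℤ,
        KerEq θ (z0 θ u) (z1 θ u) (fun k => (φ k : K)) →
        KerEq θ (z0 θ u) (z1 θ u) (fun k => (ψ k : K)) → ∀ k k', φ k * ψ k' = φ k' * ψ k

/-- ROW S15b. Polynomial solutions have degree at least 10. -/
def KerBStmt : Prop :=
  ∀ (K : Type) [Field K] [NumberField K] (θ : K), St 7 θ → ∀ Φ, Φ ≠ 0 → KerP θ Φ →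
    ∃ k, 10 ≤ (Φ k).totalDegree

/-- ROW S15c. A solution without common factor, in sheared coordinates. -/
def KerCStmt : Prop :=
  ∀ (σ κ : Type) [Fintype σ] [Fintype κ] (s0 : σ) (D0 : ℕ) (Ker : (κ → MvPolynomial σ ℤ) → Prop),
    (∀ (h : MvPolynomial σ ℤ) (Φ : κ → MvPolynomial σ ℤ), h ≠ 0 → Ker (fun k => h * Φ k) → Ker Φ) →
    (∃ Φ, Φ ≠ 0 ∧ Ker Φ) → (∀ Φ, Φ ≠ 0 → Ker Φ → ∃ k, D0 ≤ (Φ k).totalDegree) →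
    ∃ (Φ U : κ → MvPolynomial σ ℤ) (R : MvPolynomial σ ℤ) (k0 : κ) (e : σ → ℤ) (D : ℕ) (c : ℤ),
      Ker Φ ∧ e s0 = 1 ∧ D0 ≤ D ∧ c ≠ 0 ∧ R ≠ 0 ∧ ∑ k, U k * Φ k = R ∧
      (∀ (u : σ → ℤ) (y : ℤ), MvPolynomial.eval (u + y • e) R = MvPolynomial.eval u R) ∧
      ∀ u : σ → ℤ, ∃ P : ℤ[X], P.natDegree ≤ D ∧ P.coeff D = c ∧
        ∀ y : ℤ, P.eval y = MvPolynomial.eval (u + y • e) (Φ k0)

open Classical in
/-- ROW S16. The second exceptional set is small. -/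
def Rare1Stmt : Prop :=
  ∀ (K : Type) [Field K] [NumberField K] (d : ℕ) (θ : K), St d θ → ∀ ε : ℝ, 0 < ε →
    ∃ C : ℝ, 0 ≤ C ∧ ∀ (i0 : Fin d) (N0 N1 : ℕ) (G : ℝ), 1 ≤ N0 → N0 ≤ N1 → 1 ≤ G →
      (((pbox d i0 N0 N1).filter (fun u => z0 θ u ≠ 0 ∧ Bad1 d θ (om θ u) G)).card : ℝ) ≤
        C * ((N0 : ℝ) ^ d * (N1 : ℝ) ^ (d - 1)) * (N1 : ℝ) ^ ε * G ^ ((1 : ℝ) / 10)

/-- An irreducible curve of class `(m2, n2, r2)`. -/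
structure Crv {K : Type} [Field K] (θ ω : K) (g : ℤ[X][X]) (m2 n2 r2 : ℕ) : Prop where
  irr : Irreducible g
  hm : dS g = m2
  hn : g.natDegree = n2
  ord : Ord ω θ r2 (up K g)
  nord : ¬ Ord ω θ (r2 + 1) (up K g)

/-- `N` incidences on the curve, in one nonsingular residue class modulo `q`, with distinct `t`. -/
structure Fam {K : Type} [Field K] (θ ω : K) (X A B p0 : ℝ) (g : ℤ[X][X]) (m2 n2 q N : ℕ)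
    (Q : ℕ → Pt K) : Prop where
  inc : ∀ i, i < N → Inc θ ω X A B p0 (Q i)
  on : ∀ i, i < N → (Q i).val m2 n2 g = 0
  unit : ∀ i, i < N → ¬ (q : ℤ) ∣ (Q i).y * (Q i).b * (Q i).val (m2 - 1) n2 (ds g)
  cs : ∀ i, i < N → (q : ℤ) ∣ (Q i).x * (Q 0).y - (Q 0).x * (Q i).y
  ct : ∀ i, i < N → (q : ℤ) ∣ (Q i).a * (Q 0).b - (Q 0).a * (Q i).b
  ne : ∀ i j, i < j → j < N → (Q i).a * (Q j).b ≠ (Q j).a * (Q i).b

/-- ROW S17. The filtration lemma. -/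
def FiltStmt : Prop :=
  ∀ (K : Type) [Field K] [NumberField K] (d : ℕ) (θ ω : K), St d θ → Gen ω →
    ∀ (m n r m' n' r' m2 n2 r2 q N : ℕ) (g : ℤ[X][X]) (X A B p0 : ℝ) (Q : ℕ → Pt K),
      1 ≤ m' → m' ≤ m2 → 1 ≤ n' → n' ≤ n2 → r2 ≤ r' → Crv θ ω g m2 n2 r2 → q.Prime →
      (q : ℝ) < p0 → n2 * (m * n2 + m2 * n) < N → Fam θ ω X A B p0 g m2 n2 q N Q →
      ∀ (S : Finset ℤ[X][X]) (Bd : ℕ → ℝ), (∀ j, 0 ≤ Bd j) →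
        (∀ f ∈ S, Dg (m + 1) (n + 1) f ∧ Ord ω θ r (up K f)) →
        (∀ f ∈ S, ∀ f' ∈ S, ∀ (j : ℕ) (h : ℤ[X][X]), h ≠ 0 → f - f' = g ^ j * h → ∀ i, i < N →
          |(((Q i).val (m - j * m2) (n - j * n2) h : ℤ) : ℝ)| ≤
            Bd j * ((Q i).p : ℝ) ^ (r - j * r2)) →
        ∃ Nt : Finset (ℕ × ℕ), Nt ⊆ range (min (m / m') (n / n') + 1) ×ˢ range N ∧
          (∀ j, (Nt.filter (fun z => j ≤ z.1)).card ≤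
            capG d (m + 1 - j * m') (n + 1 - j * n') (r - j * r')) ∧
          (S.card : ℝ) ≤ ∏ z ∈ Nt, (2 * Bd z.1 / (q : ℝ) ^ z.2 + 1)

/-- The penalty is admissible for the curve. -/
def PenOk (g : ℤ[X][X]) (m2 n2 r2 : ℕ) (c0 X P x1 x2 pen : ℝ) : Prop :=
  P - x1 ≤ pen ∨ ∃ i k, i ≤ m2 ∧ c0 * X ^ (r2 * P - n2 - pen) ≤
    |((cf g i k : ℤ) : ℝ)| * (X ^ x1) ^ i * (X ^ x2) ^ (m2 - i)

/-- ROW S18. A residue class contains boundedly many incidences. -/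
def ClsStmt : Prop :=
  ∀ (K : Type) [Field K] [NumberField K] (d : ℕ) (θ : K), St d θ →
    ∀ (m n r m' n' r' M2 : ℕ) (η c0 : ℝ), r ≤ m → 1 ≤ m' → 1 ≤ n' → 0 < η → 0 < c0 →
    ∃ (N : ℕ) (X0 : ℝ), ∀ X : ℝ, X0 ≤ X → ∀ P x1 x2 t l pen : ℝ, 0 ≤ P → 0 ≤ x2 → x2 ≤ x1 →
      Good d m n r m' n' r' η P x1 x2 t l pen → ∀ ω ζ0 ζ1 : K, Gen ω →
      Rep ω (X ^ x1) (X ^ x2) (X ^ t) ζ0 ζ1 → ∀ (g : ℤ[X][X]) (m2 n2 r2 : ℕ),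
        Crv θ ω g m2 n2 r2 → m' ≤ m2 → m2 ≤ M2 → n' ≤ n2 → n2 ≤ M2 → 1 ≤ r2 → r2 ≤ r' →
        PenOk g m2 n2 r2 c0 X P x1 x2 pen → ∀ q : ℕ, q.Prime → X ^ l ≤ q → (q : ℝ) < X ^ P →
        ∀ Q : ℕ → Pt K, ¬ Fam θ ω X (X ^ x1) (X ^ x2) (X ^ P) g m2 n2 q N Q

/-- ROW S19. Incidences on one curve. -/
def CurveStmt : Prop :=
  ∀ (K : Type) [Field K] [NumberField K] (d : ℕ) (θ : K), St d θ →
    ∀ (M M2 c : ℕ) (η c0 : ℝ), 0 < η → 0 < c0 →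
    ∃ C X0 : ℝ, 0 ≤ C ∧ ∀ X : ℝ, X0 ≤ X → ∀ P x1 x2 t l pen : ℝ, 3 / 2 ≤ P → 0 ≤ x2 → x2 ≤ x1 →
      x1 ≤ 1 → ∀ ω ζ0 ζ1 : K, Gen ω → Rep ω (X ^ x1) (X ^ x2) (X ^ t) ζ0 ζ1 →
      ∀ (g : ℤ[X][X]) (m2 n2 r2 : ℕ), Crv θ ω g m2 n2 r2 → m2 ≤ M2 → n2 ≤ M2 → 1 ≤ r2 →
        Cov d M m2 n2 r2 η P x1 x2 t l pen → (∀ i k, |((cf g i k : ℤ) : ℝ)| ≤ X ^ c) →
        PenOk g m2 n2 r2 c0 X P x1 x2 pen →
        FewPt (fun Q : Pt K => Inc θ ω X (X ^ x1) (X ^ x2) (X ^ P) Q ∧ Q.val m2 n2 g = 0)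
          (C * X ^ l)

open Classical in
/-- The bound for the incidences on one line. -/
def LineC (R : Rg) {K : Type} [Field K] [NumberField K] (θ : K) : Prop :=
  ∃ C X0 : ℝ, 0 ≤ C ∧ ∀ X : ℝ, X0 ≤ X → ∀ P x1 x2 : ℝ, R.Reg P x1 x2 → ∀ ω ζ0 ζ1 : K,
    (∀ q : ℚ, ω ≠ (q : K)) → Rep ω (X ^ x1) (X ^ x2) (X ^ (R.Z P + R.e0 / 2)) ζ0 ζ1 →
    FewPt (Inc θ ω X (X ^ x1) (X ^ x2) (X ^ P))
      (C * (X ^ R.l0 P x1 x2 + (if Bad0 R.d θ ω then X ^ R.l1 P x1 x2 0 else 0) +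
        ∑ i : Fin 3, if Bad1 R.d θ ω (X ^ lev i) then X ^ R.l1 P x1 x2 (lev i) else 0))

/-- ROW S20. Incidences on one line. -/
def LineStmt : Prop :=
  ∀ (R : Rg) (K : Type) [Field K] [NumberField K] (θ : K), St R.d θ → R.Ok → Cert R → LineC R θ

/-- ROW S21a. Many primitive vectors in the prime ideal. -/
def LatStmt : Prop :=
  ∀ (K : Type) [Field K] [NumberField K] (d : ℕ) (θ : K), St d θ → ∃ c : ℝ, 0 < c ∧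
    ∀ (X T : ℝ) (a b : ℤ) (p : ℕ) (v : AbsoluteValue K ℝ), Sq θ X a b p v → 1 ≤ T → T < p →
      2 * (p : ℝ) ≤ T ^ d → ∃ S : Finset (Fin d → ℤ), c * T ^ d / p ≤ S.card ∧
        ∀ ξ ∈ S, (∀ i, |(ξ i : ℝ)| ≤ T) ∧ (∀ κ : ℤ, (∀ i, κ ∣ ξ i) → IsUnit κ) ∧
          v (el θ ξ) ≤ 1 / (p : ℝ)

/-- ROW S21b. Every primitive vector lies in a rank 2 lattice of small determinant. -/
def DirStmt : Prop :=
  ∀ d : ℕ, 3 ≤ d → ∃ C : ℝ, 1 ≤ C ∧ ∀ (T : ℝ) (ξ : Fin d → ℤ), (∀ i, |(ξ i : ℝ)| ≤ T) →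
    (∀ κ : ℤ, (∀ i, κ ∣ ξ i) → IsUnit κ) → (∃ i, 2 ≤ |ξ i|) →
    ∃ (u : Fin 2 × Fin d → ℤ) (i0 : Fin d) (n0 n1 : ℕ) (x y : ℤ), 1 ≤ n0 ∧ n0 ≤ n1 ∧
      u ∈ pbox d i0 n0 n1 ∧ ((n0 : ℝ) * n1) ^ (d - 1) ≤ C * T ^ (d - 2) ∧ Int.gcd x y = 1 ∧
      (∀ i, ξ i = x * u (0, i) + y * u (1, i)) ∧ |(x : ℝ)| * n0 ≤ C * T ∧ |(y : ℝ)| * n1 ≤ C * T ∧
      ∀ a b : ℤ, (∀ i, a * u (0, i) + b * u (1, i) = 0) → a = 0 ∧ b = 0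

/-- Power saving for primes in a dyadic interval, uniformly for exponents in `[P0, P1]`. -/
def GlobC {K : Type} [Field K] (θ : K) (P0 P1 : ℝ) : Prop :=
  ∃ δ C X0 : ℝ, 0 < δ ∧ ∀ X : ℝ, X0 ≤ X → ∀ P : ℝ, P0 ≤ P → P ≤ P1 →
    FewPt (fun Q : Pt K => Sq θ X Q.a Q.b Q.p Q.v ∧ X ^ P ≤ Q.p ∧ (Q.p : ℝ) ≤ 2 * X ^ P)
      (C * X ^ (2 - δ))

/-- ROW S22. Double counting. -/
def GlobStmt : Prop :=
  ∀ (R : Rg) (K : Type) [Field K] [NumberField K] (θ : K), St R.d θ → R.Ok → LineC R θ →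
    GlobC θ R.P0 R.P1

open Classical in
/-- Few values of an irreducible form of degree `d` are divisible by the square of a prime with
exponent in `[P0, P1]`. -/
def SqStmt (d : ℕ) (P0 P1 : ℝ) : Prop :=
  ∀ g : ℤ[X], g.natDegree = d → Irreducible (g.map (Int.castRingHom ℚ)) →
    ∃ δ : ℝ, 0 < δ ∧ ∃ B0 : ℕ, ∀ B : ℕ, B0 ≤ B →
      (((H5.box B).filter (fun t => ∃ p : ℕ, p.Prime ∧ (B : ℝ) ^ P0 ≤ p ∧ (p : ℝ) ≤ (B : ℝ) ^ P1 ∧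
        (p : ℤ) ^ 2 ∣ H5.hv g d t)).card : ℝ) ≤ (B : ℝ) ^ (2 - δ)

/-- ROW S23. Reduction to monic forms, places and dyadic intervals. -/
def FinStmt : Prop :=
  ∀ (d : ℕ) (P0 P1 P0' P1' : ℝ), 6 ≤ d → 1 ≤ P0 → P0 < P0' → P1' < P1 →
    (∀ (K : Type) [Field K] [NumberField K] (θ : K), St d θ → GlobC θ P0 P1) → SqStmt d P0' P1'

end Pool.Agent.MP_542436_nt.Sp
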