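import Pool.Agent.MP_542436_nt.Sp.Defs

set_option autoImplicit false
set_option linter.unnecessarySeqFocus false

namespace Pool.Agent.MP_542436_nt.Sp

open Finset

def sumZ (f : ℕ → ℤ) : ℕ → ℤ
  | 0 => 0
  | k + 1 => sumZ f k + f k

def sumN (f : ℕ → ℕ) : ℕ → ℕ
  | 0 => 0
  | k + 1 => sumN f k + f k

theorem sumZ_eq (f : ℕ → ℤ) (k : ℕ) : sumZ f k = ∑ i ∈ range k, f i := by
  induction k with
  | zero => rfl
  | succ k ih => rw [sumZ, ih, sum_range_succ]

theorem sumN_eq (f : ℕ → ℕ) (k : ℕ) : sumN f k = ∑ i ∈ range k, f i := by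
  induction k with
  | zero => rfl
  | succ k ih => rw [sumN, ih, sum_range_succ]

def S2 (a l : ℤ) : ℤ := if a ≤ 0 then 0 else 2 * (a / l + 1) * a - l * (a / l) * (a / l + 1)

theorem sum_lin (a l : ℤ) (k : ℕ) :
    2 * ∑ i ∈ range k, (a - i * l) = 2 * k * a - l * ((k : ℤ) - 1) * k := by
  induction k with
  | zero => simp
  | succ k ih => rw [sum_range_succ, mul_add, ih]; push_cast; ring

theorem S2_bound (a l : ℤ) (hl : 0 < l) (N : ℕ) :
    2 * ∑ i ∈ range N, max 0 (a - i * l) ≤ S2 a l := by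
  unfold S2
  split_ifs with h
  · have : ∑ i ∈ range N, max 0 (a - i * l) = 0 := by
      apply sum_eq_zero
      intro i _
      apply max_eq_left
      have : (0 : ℤ) ≤ i * l := by positivity
      linarith
    rw [this]; simp
  · have hK : 0 ≤ a / l := Int.ediv_nonneg (by linarith) hl.le
    obtain ⟨K, hKe⟩ := Int.eq_ofNat_of_zero_le hK
    have h1 : (K : ℤ) * l ≤ a := by rw [← hKe]; exact Int.ediv_mul_le a hl.ne'
    have h2 : a < ((K : ℤ) + 1) * l := by rw [← hKe]; exact Int.lt_ediv_add_one_mul_self a hl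
    have h3 : ∑ i ∈ range N, max 0 (a - i * l) ≤ ∑ i ∈ range (K + 1), max 0 (a - i * l) := by
      calc _ ≤ ∑ i ∈ range (max N (K + 1)), max 0 (a - i * l) :=
            sum_le_sum_of_subset_of_nonneg (range_subset_range.mpr (le_max_left _ _))
              (fun i _ _ => le_max_left _ _)
        _ = _ := by
          symm
          apply sum_subset (range_subset_range.mpr (le_max_right _ _))
          intro i _ hc
          rw [mem_range] at hc
          apply max_eq_left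
          have : (K : ℤ) + 1 ≤ i := by exact_mod_cast not_lt.mp hc
          nlinarith
    have h4 : ∑ i ∈ range (K + 1), max 0 (a - i * l) = ∑ i ∈ range (K + 1), (a - i * l) := by
      apply sum_congr rfl
      intro i hi
      apply max_eq_right
      have : (i : ℤ) ≤ K := by exact_mod_cast Nat.lt_succ_iff.mp (mem_range.mp hi)
      nlinarith
    have h5 := sum_lin a l (K + 1)
    rw [hKe]
    push_cast at h5
    nlinarith

def rhoZ (d m n r : ℕ) : ℤ := (((m + 1) * (n + 1) : ℕ) : ℤ) - ((d * sumN (fun j => r - 2 * j) r : ℕ) : ℤ)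

def ceeZ (d m r : ℕ) : ℤ := ((d * sumN (fun j => (r - 2 * j) * (m + 1 - (r - 2 * j))) r : ℕ) : ℤ)

def lhs2 (d m n r : ℕ) (x1 x2 t w : ℤ) : ℤ :=
  rhoZ d m n r * (2 * w - m * (x1 + x2)) - ceeZ d m r * (2 * t - (x1 + x2))

theorem lhs2_eq (d m n r : ℕ) (x1 x2 t w : ℤ) :
    lhs d m n r (x1 / 120000) (x2 / 120000) (t / 120000) (w / 120000) =
      (lhs2 d m n r x1 x2 t w : ℝ) / 240000 := by
  have h1 : rho d m n r = (rhoZ d m n r : ℝ) := by
    rw [rho, rhoZ, sumN_eq, Int.cast_sub, Int.cast_natCast, Int.cast_natCast]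
  have h2 : cee d m r = (ceeZ d m r : ℝ) := by
    rw [cee, ceeZ, sumN_eq, Int.cast_natCast]
  rw [lhs, lhs2, h1, h2]
  push_cast
  ring

def goodZ (d m n r m' n' r' : ℕ) (P x1 x2 t l pen w : ℤ) (μ : List ℕ) : Bool :=
  decide (0 < l) && decide (m * x1 ≤ w) &&
    decide (sumZ (fun j => S2 (w + n * 120000 - r * P + j * pen -
        ((sumN (fun k => μ.getD k 0) (j + 1) : ℕ) : ℤ)) l) (min (m / m') (n / n') + 1) +
      2 * ((sumN (fun j => μ.getD j 0 * capG d (m + 1 - j * m') (n + 1 - j * n') (r - j * r'))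
        (min (m / m') (n / n') + 1) : ℕ) : ℤ) + 2 ≤ lhs2 d m n r x1 x2 t w)

theorem goodZ_sound {d m n r m' n' r' : ℕ} {P x1 x2 t l pen w : ℤ} {μ : List ℕ}
    (h : goodZ d m n r m' n' r' P x1 x2 t l pen w μ = true) :
    Good d m n r m' n' r' (1 / 120000) (P / 120000) (x1 / 120000) (x2 / 120000) (t / 120000)
      (l / 120000) (pen / 120000) := by
  simp only [goodZ, Bool.and_eq_true, decide_eq_true_eq, sumZ_eq, sumN_eq] at h
  obtain ⟨⟨hl, hw⟩, h⟩ := h
  refine ⟨w / 120000, fun j => (μ.getD j 0 : ℝ) / 120000, fun j => by positivity, ?_, fun N => ?_⟩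
  · have : (m : ℝ) * x1 ≤ w := by exact_mod_cast hw
    linarith
  rw [lhs2_eq]
  have h1 : ∀ j : ℕ, ∑ i ∈ range N, max (0 : ℝ) ((w : ℝ) / 120000 + n - r * (P / 120000) +
      j * (pen / 120000) - ∑ k ∈ range (j + 1), (μ.getD k 0 : ℝ) / 120000 - i * (l / 120000)) ≤
      (S2 (w + n * 120000 - r * P + j * pen - ((∑ k ∈ range (j + 1), μ.getD k 0 : ℕ) : ℤ)) l : ℝ) /
        240000 := by
    intro j
    have h2 := S2_bound (w + n * 120000 - r * P + j * pen -
      ((∑ k ∈ range (j + 1), μ.getD k 0 : ℕ) : ℤ)) l hl N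
    have h3 : ((2 * ∑ i ∈ range N, max 0 (w + n * 120000 - r * P + j * pen -
      ((∑ k ∈ range (j + 1), μ.getD k 0 : ℕ) : ℤ) - i * l) : ℤ) : ℝ) ≤ _ := Int.cast_le.mpr h2
    refine le_trans (le_of_eq ?_) (div_le_div_of_nonneg_right h3 (by norm_num))
    push_cast
    rw [mul_sum, sum_div]
    apply sum_congr rfl
    intro i _
    rw [← sum_div]
    rcases le_total 0 ((w : ℝ) + n * 120000 - r * P + j * pen -
      ∑ k ∈ range (j + 1), (μ.getD k 0 : ℝ) - i * l) with h4 | h4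
    · rw [max_eq_right h4, max_eq_right (by linarith)]; ring
    · rw [max_eq_left h4, max_eq_left (by linarith)]; ring
  have h5 := sum_le_sum (s := range (min (m / m') (n / n') + 1)) (fun j _ => h1 j)
  have h6 : ((_ : ℤ) : ℝ) ≤ _ := Int.cast_le.mpr h
  push_cast at h6 h5 ⊢
  rw [← sum_div] at h5
  have h7 : ∑ j ∈ range (min (m / m') (n / n') + 1), (μ.getD j 0 : ℝ) / 120000 *
      (capG d (m + 1 - j * m') (n + 1 - j * n') (r - j * r') : ℝ) =
      (∑ j ∈ range (min (m / m') (n / n') + 1), (μ.getD j 0 : ℝ) *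
      (capG d (m + 1 - j * m') (n + 1 - j * n') (r - j * r') : ℝ)) / 120000 := by
    rw [sum_div]
    apply sum_congr rfl
    intro j _
    ring
  rw [h7]
  linarith

theorem good_pen {d m n r m' n' r' : ℕ} {η P x1 x2 t l pen pen' : ℝ} (hp : pen' ≤ pen)
    (h : Good d m n r m' n' r' η P x1 x2 t l pen) : Good d m n r m' n' r' η P x1 x2 t l pen' := by
  obtain ⟨w, μ, h1, h2, h3⟩ := h
  refine ⟨w, μ, h1, h2, fun N => le_trans ?_ (h3 N)⟩
  gcongr with j _ i _

theorem max_cvx (a u v : ℝ) (h0 : 0 ≤ a) (h1 : a ≤ 1) :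
    max 0 (a * u + (1 - a) * v) ≤ a * max 0 u + (1 - a) * max 0 v := by
  have e1 := le_max_left 0 u
  have e2 := le_max_right 0 u
  have e3 := le_max_left 0 v
  have e4 := le_max_right 0 v
  apply max_le <;> nlinarith

theorem good_cvx {d m n r m' n' r' : ℕ} {η P x1 x2 t l pen P' x1' x2' t' l' pen' a : ℝ}
    (h0 : 0 ≤ a) (h1 : a ≤ 1) (h : Good d m n r m' n' r' η P x1 x2 t l pen)
    (h' : Good d m n r m' n' r' η P' x1' x2' t' l' pen') :
    Good d m n r m' n' r' η (a * P + (1 - a) * P') (a * x1 + (1 - a) * x1')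
      (a * x2 + (1 - a) * x2') (a * t + (1 - a) * t') (a * l + (1 - a) * l')
      (a * pen + (1 - a) * pen') := by
  obtain ⟨w, μ, a1, a2, a3⟩ := h
  obtain ⟨w', μ', b1, b2, b3⟩ := h'
  have h2 : 0 ≤ 1 - a := by linarith
  refine ⟨a * w + (1 - a) * w', fun j => a * μ j + (1 - a) * μ' j,
    fun j => add_nonneg (mul_nonneg h0 (a1 j)) (mul_nonneg h2 (b1 j)), by nlinarith, fun N => ?_⟩
  have e1 : lhs d m n r (a * x1 + (1 - a) * x1') (a * x2 + (1 - a) * x2') (a * t + (1 - a) * t')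
      (a * w + (1 - a) * w') = a * lhs d m n r x1 x2 t w + (1 - a) * lhs d m n r x1' x2' t' w' := by
    simp only [lhs]; ring
  have e2 : ∑ j ∈ range (min (m / m') (n / n') + 1), (a * μ j + (1 - a) * μ' j) *
      (capG d (m + 1 - j * m') (n + 1 - j * n') (r - j * r') : ℝ) =
      a * ∑ j ∈ range (min (m / m') (n / n') + 1), μ j *
        (capG d (m + 1 - j * m') (n + 1 - j * n') (r - j * r') : ℝ) +
      (1 - a) * ∑ j ∈ range (min (m / m') (n / n') + 1), μ' j *
        (capG d (m + 1 - j * m') (n + 1 - j * n') (r - j * r') : ℝ) := by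
    rw [mul_sum, mul_sum, ← sum_add_distrib]
    apply sum_congr rfl
    intro j _
    ring
  have e3 : ∑ j ∈ range (min (m / m') (n / n') + 1), ∑ i ∈ range N,
      max 0 (a * w + (1 - a) * w' + n - r * (a * P + (1 - a) * P') + j * (a * pen + (1 - a) * pen') -
        ∑ k ∈ range (j + 1), (a * μ k + (1 - a) * μ' k) - i * (a * l + (1 - a) * l')) ≤
      a * ∑ j ∈ range (min (m / m') (n / n') + 1), ∑ i ∈ range N,
        max 0 (w + n - r * P + j * pen - ∑ k ∈ range (j + 1), μ k - i * l) +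
      (1 - a) * ∑ j ∈ range (min (m / m') (n / n') + 1), ∑ i ∈ range N,
        max 0 (w' + n - r * P' + j * pen' - ∑ k ∈ range (j + 1), μ' k - i * l') := by
    rw [mul_sum, mul_sum, ← sum_add_distrib]
    apply sum_le_sum
    intro j _
    rw [mul_sum, mul_sum, ← sum_add_distrib]
    apply sum_le_sum
    intro i _
    refine le_trans (le_of_eq ?_) (max_cvx a _ _ h0 h1)
    rw [sum_add_distrib, ← mul_sum, ← mul_sum]
    congr 1
    ring
  have e4 := mul_le_mul_of_nonneg_left (a3 N) h0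
  have e5 := mul_le_mul_of_nonneg_left (b3 N) h2
  rw [e1, e2]
  nlinarith

theorem top_cvx {d m n r : ℕ} {η P x1 x2 t P' x1' x2' t' a : ℝ}
    (h0 : 0 ≤ a) (h1 : a ≤ 1) (h : Top d m n r η P x1 x2 t) (h' : Top d m n r η P' x1' x2' t') :
    Top d m n r η (a * P + (1 - a) * P') (a * x1 + (1 - a) * x1')
      (a * x2 + (1 - a) * x2') (a * t + (1 - a) * t') := by
  obtain ⟨w, a1, a2, a3⟩ := h
  obtain ⟨w', b1, b2, b3⟩ := h'
  have h2 : 0 ≤ 1 - a := by linarith
  have e1 : lhs d m n r (a * x1 + (1 - a) * x1') (a * x2 + (1 - a) * x2') (a * t + (1 - a) * t')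
      (a * w + (1 - a) * w') = a * lhs d m n r x1 x2 t w + (1 - a) * lhs d m n r x1' x2' t' w' := by
    simp only [lhs]; ring
  refine ⟨a * w + (1 - a) * w', by nlinarith, ?_, by nlinarith⟩
  rw [e1]
  nlinarith

/-- A convex predicate of four real variables. -/
def Cvx (G : ℝ → ℝ → ℝ → ℝ → Prop) : Prop :=
  ∀ P s x t P' s' x' t' a : ℝ, 0 ≤ a → a ≤ 1 → G P s x t → G P' s' x' t' →
    G (a * P + (1 - a) * P') (a * s + (1 - a) * s') (a * x + (1 - a) * x') (a * t + (1 - a) * t')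

theorem Cvx.seg {G : ℝ → ℝ → ℝ → ℝ → Prop} (hG : Cvx G) {u0 u1 u : ℝ} (h0 : u0 ≤ u) (h1 : u ≤ u1)
    (a1 b1 a2 b2 a3 b3 a4 b4 : ℝ)
    (g0 : G (a1 + b1 * u0) (a2 + b2 * u0) (a3 + b3 * u0) (a4 + b4 * u0))
    (g1 : G (a1 + b1 * u1) (a2 + b2 * u1) (a3 + b3 * u1) (a4 + b4 * u1)) :
    G (a1 + b1 * u) (a2 + b2 * u) (a3 + b3 * u) (a4 + b4 * u) := by
  rcases eq_or_lt_of_le (h0.trans h1) with h | h
  · have : u = u0 := by linarith
    rw [this]; exact g0
  · have hd : 0 < u1 - u0 := by linarith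
    have := hG _ _ _ _ _ _ _ _ ((u1 - u) / (u1 - u0)) (div_nonneg (by linarith) hd.le)
      ((div_le_one hd).mpr (by linarith)) g0 g1
    convert this using 1 <;> field_simp <;> ring

theorem Cvx.region {G : ℝ → ℝ → ℝ → ℝ → Prop} (hG : Cvx G) (P0 P1 a0 b0 a1 b1 az bz : ℝ)
    (c : ∀ P, P = P0 ∨ P = P1 → ∀ s, s = a0 + b0 * P ∨ s = a1 + b1 * P →
      G P s (s / 2) (s / 2) ∧ G P s (s / 2) (az + bz * P) ∧ G P s (az + bz * P) (az + bz * P))
    {P s x t : ℝ} (p0 : P0 ≤ P) (p1 : P ≤ P1) (s0 : a0 + b0 * P ≤ s) (s1 : s ≤ a1 + b1 * P)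
    (x0 : s / 2 ≤ x) (x1 : x ≤ az + bz * P) (t0 : x ≤ t) (t1 : t ≤ az + bz * P) : G P s x t := by
  have A : ∀ a b : ℝ, (a = a0 ∧ b = b0) ∨ (a = a1 ∧ b = b1) →
      G P (a + b * P) ((a + b * P) / 2) ((a + b * P) / 2) ∧
      G P (a + b * P) ((a + b * P) / 2) (az + bz * P) ∧
      G P (a + b * P) (az + bz * P) (az + bz * P) := by
    intro a b hab
    have c0 := c P0 (Or.inl rfl) (a + b * P0) (by rcases hab with ⟨h, h'⟩ | ⟨h, h'⟩ <;> simp [h, h'])
    have c1 := c P1 (Or.inr rfl) (a + b * P1) (by rcases hab with ⟨h, h'⟩ | ⟨h, h'⟩ <;> simp [h, h'])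
    refine ⟨?_, ?_, ?_⟩
    · have := hG.seg p0 p1 0 1 a b (a / 2) (b / 2) (a / 2) (b / 2)
        (by convert c0.1 using 1 <;> ring) (by convert c1.1 using 1 <;> ring)
      convert this using 1 <;> ring
    · have := hG.seg p0 p1 0 1 a b (a / 2) (b / 2) az bz
        (by convert c0.2.1 using 1 <;> ring) (by convert c1.2.1 using 1 <;> ring)
      convert this using 1 <;> ring
    · have := hG.seg p0 p1 0 1 a b az bz az bz
        (by convert c0.2.2 using 1 <;> ring) (by convert c1.2.2 using 1 <;> ring)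
      convert this using 1 <;> ring
  have A0 := A a0 b0 (Or.inl ⟨rfl, rfl⟩)
  have A1 := A a1 b1 (Or.inr ⟨rfl, rfl⟩)
  have B1 : G P s (s / 2) (s / 2) := by
    have := hG.seg s0 s1 P 0 0 1 0 (1 / 2) 0 (1 / 2)
      (by convert A0.1 using 1 <;> ring) (by convert A1.1 using 1 <;> ring)
    convert this using 1 <;> ring
  have B2 : G P s (s / 2) (az + bz * P) := by
    have := hG.seg s0 s1 P 0 0 1 0 (1 / 2) (az + bz * P) 0
      (by convert A0.2.1 using 1 <;> ring) (by convert A1.2.1 using 1 <;> ring)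
    convert this using 1 <;> ring
  have B3 : G P s (az + bz * P) (az + bz * P) := by
    have := hG.seg s0 s1 P 0 0 1 (az + bz * P) 0 (az + bz * P) 0
      (by convert A0.2.2 using 1 <;> ring) (by convert A1.2.2 using 1 <;> ring)
    convert this using 1 <;> ring
  have C1 : G P s x x := by
    have := hG.seg x0 x1 P 0 s 0 0 1 0 1
      (by convert B1 using 1 <;> ring) (by convert B3 using 1 <;> ring)
    convert this using 1 <;> ring
  have C2 : G P s x (az + bz * P) := by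
    have := hG.seg x0 x1 P 0 s 0 0 1 (az + bz * P) 0
      (by convert B2 using 1 <;> ring) (by convert B3 using 1 <;> ring)
    convert this using 1 <;> ring
  have := hG.seg t0 t1 P 0 s 0 x 0 0 1
    (by convert C1 using 1 <;> ring) (by convert C2 using 1 <;> ring)
  convert this using 1 <;> ring

end Pool.Agent.MP_542436_nt.Sp
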