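import Pool.Agent.MP_542436_nt.Sp.Chk

set_option autoImplicit false
set_option linter.unnecessarySeqFocus false

namespace Pool.Agent.MP_542436_nt.Sp

open Finset

/-- A range with integer data, in units of `1 / 120000`. -/
structure RZ where
  d : ℕ
  P0 : ℤ
  P1 : ℤ
  Z0 : ℤ
  Z1 : ℤ
  e0 : ℤ
  del : ℤ

noncomputable def RZ.toRg (R : RZ) : Rg where
  d := R.d
  P0 := R.P0 / 120000
  P1 := R.P1 / 120000
  al := R.Z0 / 120000 - ((R.Z1 : ℝ) - R.Z0) / (R.P1 - R.P0) * (R.P0 / 120000)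
  be := ((R.Z1 : ℝ) - R.Z0) / (R.P1 - R.P0)
  e0 := R.e0 / 120000
  del := R.del / 120000

def RZ.three (R : RZ) (f : ℕ → ℤ → ℤ → ℤ → ℤ → ℤ → Bool) (k : ℕ) (P Z s : ℤ) : Bool :=
  decide (2 * (s / 2) = s) && f k P Z s (s / 2) (s / 2) && f (k + 1) P Z s (s / 2) (Z + R.e0) &&
    f (k + 2) P Z s (Z + R.e0) (Z + R.e0)

def RZ.six (R : RZ) (f : ℕ → ℤ → ℤ → ℤ → ℤ → ℤ → Bool) (k : ℕ) (P Z : ℤ) : Bool :=
  decide (((R.d : ℤ) - 1) * (R.d * Z / (R.d - 1)) = R.d * Z) &&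
  decide (((R.d : ℤ) - 1) * ((P + R.d * Z - 240000 + R.del) / (R.d - 1)) =
    P + R.d * Z - 240000 + R.del) &&
  R.three f k P Z (R.d * Z / (R.d - 1)) &&
  R.three f (k + 3) P Z ((P + R.d * Z - 240000 + R.del) / (R.d - 1))

def RZ.all (R : RZ) (f : ℕ → ℤ → ℤ → ℤ → ℤ → ℤ → Bool) : Bool :=
  decide (2 ≤ R.d) && decide (R.P0 < R.P1) && R.six f 0 R.P0 R.Z0 && R.six f 6 R.P1 R.Z1

theorem RZ.Z_P0 (R : RZ) : R.toRg.Z (R.P0 / 120000) = R.Z0 / 120000 := by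
  simp only [Rg.Z, RZ.toRg]; ring

theorem RZ.Z_P1 (R : RZ) (h : R.P0 < R.P1) : R.toRg.Z (R.P1 / 120000) = R.Z1 / 120000 := by
  have : (R.P1 : ℝ) - R.P0 ≠ 0 := by
    have : (R.P0 : ℝ) < R.P1 := by exact_mod_cast h
    linarith
  simp only [Rg.Z, RZ.toRg]; field_simp; ring

theorem RZ.all_sound (R : RZ) (f : ℕ → ℤ → ℤ → ℤ → ℤ → ℤ → Bool) {G : ℝ → ℝ → ℝ → ℝ → Prop}
    (hG : Cvx G) (hf : ∀ k P Z s x t, f k P Z s x t = true →
      R.toRg.Z (P / 120000) = Z / 120000 → G (P / 120000) (s / 120000) (x / 120000) (t / 120000))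
    (h : R.all f = true) {P x1 x2 t : ℝ} (hR : R.toRg.Reg P x1 x2)
    (hn : ¬ x1 + x2 ≤ R.toRg.l0 P x1 x2) (t0 : x1 ≤ t) (t1 : t ≤ R.toRg.Z P + R.toRg.e0) :
    G P (x1 + x2) x1 t := by
  simp only [RZ.all, Bool.and_eq_true, decide_eq_true_eq] at h
  obtain ⟨⟨⟨hd, hP⟩, h0⟩, h1⟩ := h
  have hd' : (0 : ℝ) < (R.d : ℝ) - 1 := by
    have : (2 : ℝ) ≤ R.d := by exact_mod_cast hd
    linarith
  have three : ∀ k (P Z s : ℤ), R.three f k P Z s = true → R.toRg.Z (P / 120000) = Z / 120000 →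
      G (P / 120000) (s / 120000) (s / 120000 / 2) (s / 120000 / 2) ∧
      G (P / 120000) (s / 120000) (s / 120000 / 2) (R.toRg.Z (P / 120000) + R.toRg.e0) ∧
      G (P / 120000) (s / 120000) (R.toRg.Z (P / 120000) + R.toRg.e0)
        (R.toRg.Z (P / 120000) + R.toRg.e0) := by
    intro k P Z s h hZ
    simp only [RZ.three, Bool.and_eq_true, decide_eq_true_eq] at h
    obtain ⟨⟨⟨e, a1⟩, a2⟩, a3⟩ := h
    have e1 : (s : ℝ) / 120000 / 2 = ((s / 2 : ℤ) : ℝ) / 120000 := by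
      have : (2 : ℝ) * ((s / 2 : ℤ) : ℝ) = s := by exact_mod_cast e
      linarith
    have e2 : R.toRg.Z (P / 120000) + R.toRg.e0 = ((Z + R.e0 : ℤ) : ℝ) / 120000 := by
      rw [hZ]; simp only [RZ.toRg]; push_cast; ring
    rw [e1, e2]
    exact ⟨hf _ _ _ _ _ _ a1 hZ, hf _ _ _ _ _ _ a2 hZ, hf _ _ _ _ _ _ a3 hZ⟩
  have six : ∀ k (P Z : ℤ), R.six f k P Z = true → R.toRg.Z (P / 120000) = Z / 120000 →
      ∀ s : ℝ, s = R.d * R.toRg.al / (R.d - 1) + R.d * R.toRg.be / (R.d - 1) * (P / 120000) ∨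
        s = (R.d * R.toRg.al - 2 + R.toRg.del) / (R.d - 1) +
          (1 + R.d * R.toRg.be) / (R.d - 1) * (P / 120000) →
      G (P / 120000) s (s / 2) (s / 2) ∧
      G (P / 120000) s (s / 2) (R.toRg.al + R.toRg.e0 + R.toRg.be * (P / 120000)) ∧
      G (P / 120000) s (R.toRg.al + R.toRg.e0 + R.toRg.be * (P / 120000))
        (R.toRg.al + R.toRg.e0 + R.toRg.be * (P / 120000)) := by
    intro k P Z h hZ s hs
    simp only [RZ.six, Bool.and_eq_true, decide_eq_true_eq] at h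
    obtain ⟨⟨⟨e1, e2⟩, a1⟩, a2⟩ := h
    have e3 : R.toRg.al + R.toRg.e0 + R.toRg.be * (P / 120000) =
        R.toRg.Z (P / 120000) + R.toRg.e0 := by simp only [Rg.Z]; ring
    have hZ' : R.toRg.al + R.toRg.be * (P / 120000) = Z / 120000 := hZ
    have hdel : R.toRg.del = R.del / 120000 := rfl
    rw [e3]
    rcases hs with hs | hs
    · have e4 : ((R.d : ℝ) - 1) * ((R.d * Z / (R.d - 1) : ℤ) : ℝ) = R.d * Z := by exact_mod_cast e1
      have : s = ((R.d * Z / (R.d - 1) : ℤ) : ℝ) / 120000 := by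
        apply mul_left_cancel₀ hd'.ne'
        rw [hs, ← mul_div_assoc ((R.d : ℝ) - 1), e4, mul_div_assoc (R.d : ℝ) (Z : ℝ), ← hZ']
        field_simp
      rw [this]
      exact three _ _ _ _ a1 hZ
    · have e4 : ((R.d : ℝ) - 1) * (((P + R.d * Z - 240000 + R.del) / (R.d - 1) : ℤ) : ℝ) =
          P + R.d * Z - 240000 + R.del := by exact_mod_cast e2
      have : s = (((P + R.d * Z - 240000 + R.del) / (R.d - 1) : ℤ) : ℝ) / 120000 := by
        apply mul_left_cancel₀ hd'.ne'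
        have e5 : ((P : ℝ) + R.d * Z - 240000 + R.del) / 120000 =
            P / 120000 + R.d * (Z / 120000) - 2 + R.del / 120000 := by ring
        rw [hs, ← mul_div_assoc ((R.d : ℝ) - 1), e4, e5, ← hZ', hdel]
        field_simp
        ring
      rw [this]
      exact three _ _ _ _ a2 hZ
  have hs0 := hR.s0
  have hx := hR.x21
  have hdd : ((R.toRg.d : ℕ) : ℝ) = R.d := rfl
  simp only [Rg.l0, hdd, not_le, Rg.Z] at hn hs0
  apply hG.region R.toRg.P0 R.toRg.P1 (R.d * R.toRg.al / (R.d - 1)) (R.d * R.toRg.be / (R.d - 1))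
    ((R.d * R.toRg.al - 2 + R.toRg.del) / (R.d - 1)) ((1 + R.d * R.toRg.be) / (R.d - 1))
    (R.toRg.al + R.toRg.e0) R.toRg.be _ hR.p0 hR.p1
  · rw [div_mul_eq_mul_div, ← add_div, div_le_iff₀ hd']; linarith
  · rw [div_mul_eq_mul_div, ← add_div, le_div_iff₀ hd']; linarith
  · linarith
  · have := hR.x1z; simp only [Rg.Z] at this; linarith
  · exact t0
  · simp only [Rg.Z] at t1; linarith
  · rintro P (rfl | rfl)
    · exact six _ _ _ h0 R.Z_P0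
    · exact six _ _ _ h1 (R.Z_P1 hP)

/-- A certificate. -/
structure CZ where
  sv : Bool
  g10 : ℕ
  ty : ℕ
  glo : ℕ
  m' : ℕ
  n' : ℕ
  r' : ℕ
  m : ℕ
  n : ℕ
  r : ℕ
  dat : List (ℤ × List ℕ)

def CZ.lZ (c : CZ) (R : RZ) (P Z s x : ℤ) : ℤ :=
  240000 - P - R.d * Z + (R.d + 1) * x + (R.d - 1) * (s - x) - R.del +
    (if c.sv then Z - x else 0) - c.g10

def CZ.penZ (c : CZ) (P s x t : ℤ) : ℤ :=
  if c.ty = 1 then P - x else if c.ty = 2 then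
    c.r' * P - c.n' * 120000 - c.r' * t - ((c.m' : ℤ) - c.r') * (s - x)
  else 2 * P - 240000 - 4 * (s - x) - c.glo

noncomputable def CZ.lR (c : CZ) (R : Rg) (P x1 x2 : ℝ) : ℝ :=
  R.l0 P x1 x2 + (if c.sv then R.Z P - x1 else 0) - c.g10 / 120000

noncomputable def CZ.penR (c : CZ) (P x1 x2 t : ℝ) : ℝ :=
  if c.ty = 1 then P - x1 else if c.ty = 2 then
    c.r' * P - c.n' - c.r' * t - ((c.m' : ℝ) - c.r') * x2
  else 2 * P - 2 - 4 * x2 - c.glo / 120000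

def CZ.ok (c : CZ) (R : RZ) (M : ℕ) : Bool :=
  decide (c.m ≤ M ∧ c.n ≤ M ∧ c.m' ≤ M ∧ c.n' ≤ M ∧ c.r' ≤ M ∧ c.r ≤ c.m ∧ 1 ≤ c.m' ∧ 1 ≤ c.n') &&
  R.all (fun k P Z s x t => decide (6000 ≤ c.lZ R P Z s x) && decide (c.lZ R P Z s x ≤ 168000) &&
    goodZ R.d c.m c.n c.r c.m' c.n' c.r' P x (s - x) t (c.lZ R P Z s x) (c.penZ P s x t)
      (c.dat.getD k (0, [])).1 (c.dat.getD k (0, [])).2)

theorem CZ.ok_sound (c : CZ) (R : RZ) (M : ℕ) (h : c.ok R M = true) {P x1 x2 t : ℝ}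
    (hR : R.toRg.Reg P x1 x2) (hn : ¬ x1 + x2 ≤ R.toRg.l0 P x1 x2) (t0 : x1 ≤ t)
    (t1 : t ≤ R.toRg.Z P + R.toRg.e0) {m2 n2 r2 : ℕ} (h1 : c.m' ≤ m2) (h2 : c.n' ≤ n2)
    (h3 : r2 ≤ c.r') {l pen : ℝ} (hl : l = c.lR R.toRg P x1 x2) (hp : pen ≤ c.penR P x1 x2 t) :
    Cov R.d M m2 n2 r2 (1 / 120000) P x1 x2 t l pen := by
  simp only [CZ.ok, Bool.and_eq_true, decide_eq_true_eq] at h
  obtain ⟨⟨b1, b2, b3, b4, b5, b6, b7, b8⟩, h⟩ := h
  have key := R.all_sound _ (G := fun P s x t => 1 / 20 ≤ c.lR R.toRg P x (s - x) ∧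
    c.lR R.toRg P x (s - x) ≤ 7 / 5 ∧ Good R.d c.m c.n c.r c.m' c.n' c.r' (1 / 120000) P x (s - x) t
      (c.lR R.toRg P x (s - x)) (c.penR P x (s - x) t)) ?_ ?_ h hR hn t0 t1
  · rw [add_sub_cancel_left] at key
    subst hl
    exact ⟨key.1, key.2.1, c.m, c.n, c.r, c.m', c.n', c.r', b1, b2, b3, b4, b5, b6, b7, h1, b8, h2,
      h3, good_pen hp key.2.2⟩
  · rintro P s x t P' s' x' t' a a0 a1 ⟨u1, u2, u3⟩ ⟨v1, v2, v3⟩
    have e1 : c.lR R.toRg (a * P + (1 - a) * P') (a * x + (1 - a) * x')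
        (a * s + (1 - a) * s' - (a * x + (1 - a) * x')) =
        a * c.lR R.toRg P x (s - x) + (1 - a) * c.lR R.toRg P' x' (s' - x') := by
      simp only [CZ.lR, Rg.l0, Rg.Z]
      split_ifs <;> ring
    have e2 : c.penR (a * P + (1 - a) * P') (a * x + (1 - a) * x')
        (a * s + (1 - a) * s' - (a * x + (1 - a) * x')) (a * t + (1 - a) * t') =
        a * c.penR P x (s - x) t + (1 - a) * c.penR P' x' (s' - x') t' := by
      simp only [CZ.penR]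
      split_ifs <;> ring
    have e3 : a * s + (1 - a) * s' - (a * x + (1 - a) * x') = a * (s - x) + (1 - a) * (s' - x') := by
      ring
    rw [e1, e2, e3]
    exact ⟨by nlinarith, by nlinarith, good_cvx a0 a1 u3 v3⟩
  · intro k P Z s x t h hZ
    simp only [Bool.and_eq_true, decide_eq_true_eq] at h
    obtain ⟨⟨u1, u2⟩, u3⟩ := h
    have e0 : (s : ℝ) / 120000 - x / 120000 = ((s - x : ℤ) : ℝ) / 120000 := by push_cast; ring
    have e1 : c.lR R.toRg (P / 120000) (x / 120000) (s / 120000 - x / 120000) =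
        (c.lZ R P Z s x : ℝ) / 120000 := by
      have hdel : R.toRg.del = R.del / 120000 := rfl
      have hdd : ((R.toRg.d : ℕ) : ℝ) = R.d := rfl
      simp only [CZ.lR, CZ.lZ, Rg.l0, hZ, hdel, hdd]
      split_ifs <;> push_cast <;> ring
    have e2 : c.penR (P / 120000) (x / 120000) (s / 120000 - x / 120000) (t / 120000) =
        (c.penZ P s x t : ℝ) / 120000 := by
      simp only [CZ.penR, CZ.penZ]
      split_ifs <;> push_cast <;> ring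
    rw [e1, e2, e0]
    have w1 : (6000 : ℝ) ≤ c.lZ R P Z s x := by exact_mod_cast u1
    have w2 : (c.lZ R P Z s x : ℝ) ≤ 168000 := by exact_mod_cast u2
    exact ⟨by linarith, by linarith, goodZ_sound u3⟩

def CZ.fit (c : CZ) (sv : Bool) (g10 m2 n2 r2 : ℕ) : Bool :=
  (c.sv == sv) && decide (c.g10 = g10) && decide (c.ty = 1 ∨ c.ty = 2) &&
    decide (c.m' ≤ m2 ∧ c.n' ≤ n2 ∧ r2 ≤ c.r')

def CZ.fit3 (c : CZ) (sv : Bool) (g10 glo : ℕ) : Bool :=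
  (c.sv == sv) && decide (c.g10 = g10) && decide (c.ty = 3) && decide (c.glo = glo) &&
    decide (c.m' ≤ 4 ∧ c.n' ≤ 2 ∧ 2 ≤ c.r')

def covZ (d : ℕ) (cs : List CZ) (m2 n2 r2 : ℕ) : Bool :=
  cs.any (fun c => c.fit false 0 m2 n2 r2) ||
  (decide (d = 7) && list0.any (fun c => decide (m2 ≤ c.1 ∧ n2 ≤ c.2.1 ∧ c.2.2 ≤ r2)) &&
    cs.any (fun c => c.fit true 0 m2 n2 r2)) ||
  (decide (d = 7 ∧ m2 = 4 ∧ n2 = 2 ∧ r2 = 2) && cs.any (fun c => c.fit true 8400 4 2 2) &&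
    cs.any (fun c => c.fit3 true 13200 84000) && cs.any (fun c => c.fit3 true 18000 132000) &&
    cs.any (fun c => c.fit3 false 0 180000))

def coverZ (d : ℕ) (cs : List CZ) (m0 mm nm : ℕ) : Bool :=
  decide (nm ≤ 6) && cs.any (fun c => c.fit false 0 1 nm m0) &&
  cs.any (fun c => c.fit false 0 mm 1 m0) &&
  (List.range nm).all (fun n2 => (List.range mm).all (fun m2 => (List.range (2 * n2 + 1)).all
    (fun r2 => decide (r2 < 2 ∨ m2 < r2 ∨ 4 * ((m2 - 1) * n2) < d * (r2 * (r2 - 1))) ||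
      covZ d cs m2 n2 r2)))

def topZ (R : RZ) (m n r : ℕ) (ws : List ℤ) : Bool :=
  decide (r ≤ m) && R.all (fun k P Z s x t =>
    decide (m * x ≤ ws.getD k 0) && decide (2 ≤ lhs2 R.d m n r x (s - x) t (ws.getD k 0)) &&
    decide (ws.getD k 0 + n * 120000 + 1 ≤ r * P) && decide (x ≤ s) && decide (t ≤ P) &&
    decide (0 ≤ 240000 - P - R.d * Z + (R.d + 1) * x + (R.d - 1) * (s - x) - R.del) &&
    decide (R.d = 7 ∨ s ≤ 240000 - P - R.d * Z + (R.d + 1) * x + (R.d - 1) * (s - x) - R.del + Z - x))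

theorem pen0_le (c : CZ) (hty : c.ty = 1 ∨ c.ty = 2) {m2 n2 r2 : ℕ} (h1 : c.m' ≤ m2)
    (h2 : c.n' ≤ n2) (h3 : r2 ≤ c.r') {P x1 x2 t : ℝ} (hx : 0 ≤ x2) (ht : t ≤ P) :
    pen0 m2 n2 r2 P x1 x2 t ≤ c.penR P x1 x2 t := by
  unfold pen0 CZ.penR
  rcases hty with h | h
  · rw [if_pos h]; exact min_le_left _ _
  · rw [if_neg (by omega), if_pos h]
    refine (min_le_right _ _).trans ?_
    have a1 : (c.m' : ℝ) ≤ m2 := by exact_mod_cast h1
    have a2 : (c.n' : ℝ) ≤ n2 := by exact_mod_cast h2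
    have a3 : (r2 : ℝ) ≤ c.r' := by exact_mod_cast h3
    nlinarith [mul_nonneg (sub_nonneg.mpr a3) (add_nonneg (sub_nonneg.mpr ht) hx),
      mul_nonneg (sub_nonneg.mpr a1) hx]

theorem cert_of (R : RZ) (cs : List CZ) (M m0 n0 r0 mm nm : ℕ) (ws : List ℤ)
    (h1 : topZ R m0 n0 r0 ws = true) (h2 : ∀ c ∈ cs, c.ok R M = true)
    (h3 : coverZ R.d cs m0 mm nm = true) : Cert R.toRg := by
  simp only [topZ, Bool.and_eq_true, decide_eq_true_eq] at h1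
  obtain ⟨hr, h1⟩ := h1
  refine ⟨1 / 120000, M, m0, n0, r0, by norm_num, hr, fun P x1 x2 hR => ?_⟩
  by_cases hn : x1 + x2 ≤ R.toRg.l0 P x1 x2
  · exact Or.inl hn
  right
  have hdd : R.toRg.d = R.d := rfl
  have side : ∀ t, x1 ≤ t → t ≤ R.toRg.Z P + R.toRg.e0 →
      Top R.d m0 n0 r0 (1 / 120000) P x1 x2 t ∧ 0 ≤ x2 ∧ t ≤ P ∧ 0 ≤ R.toRg.l0 P x1 x2 ∧
        (R.d = 7 ∨ x1 + x2 ≤ R.toRg.l1 P x1 x2 0) := by
    intro t t0 t1
    have key := R.all_sound _ (G := fun P s x t => Top R.d m0 n0 r0 (1 / 120000) P x (s - x) t ∧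
      0 ≤ s - x ∧ t ≤ P ∧ 0 ≤ R.toRg.l0 P x (s - x) ∧
        (R.d = 7 ∨ s ≤ R.toRg.l1 P x (s - x) 0)) ?_ ?_ h1 hR hn t0 t1
    · rwa [add_sub_cancel_left] at key
    · rintro P s x t P' s' x' t' a a0 a1 ⟨u1, u2, u3, u4, u5⟩ ⟨v1, v2, v3, v4, v5⟩
      have e3 : a * s + (1 - a) * s' - (a * x + (1 - a) * x') =
          a * (s - x) + (1 - a) * (s' - x') := by ring
      have e1 : R.toRg.l0 (a * P + (1 - a) * P') (a * x + (1 - a) * x')
          (a * (s - x) + (1 - a) * (s' - x')) =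
          a * R.toRg.l0 P x (s - x) + (1 - a) * R.toRg.l0 P' x' (s' - x') := by
        simp only [Rg.l0, Rg.Z]; ring
      have e2 : R.toRg.l1 (a * P + (1 - a) * P') (a * x + (1 - a) * x')
          (a * (s - x) + (1 - a) * (s' - x')) 0 =
          a * R.toRg.l1 P x (s - x) 0 + (1 - a) * R.toRg.l1 P' x' (s' - x') 0 := by
        simp only [Rg.l1, Rg.l0, Rg.Z]; ring
      rw [e3, e1, e2]
      refine ⟨top_cvx a0 a1 u1 v1, by nlinarith, by nlinarith, by nlinarith, ?_⟩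
      rcases u5 with u5 | u5
      · exact Or.inl u5
      rcases v5 with v5 | v5
      · exact Or.inl v5
      right; nlinarith
    · intro k P Z s x t h hZ
      simp only [Bool.and_eq_true, decide_eq_true_eq] at h
      obtain ⟨⟨⟨⟨⟨⟨u1, u2⟩, u3⟩, u4⟩, u5⟩, u6⟩, u7⟩ := h
      have e0 : (s : ℝ) / 120000 - x / 120000 = ((s - x : ℤ) : ℝ) / 120000 := by push_cast; ring
      have hdel : R.toRg.del = R.del / 120000 := rfl
      have w1 : (m0 : ℝ) * x ≤ (ws.getD k 0 : ℤ) := by exact_mod_cast u1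
      have w2 : (2 : ℝ) ≤ (lhs2 R.d m0 n0 r0 x (s - x) t (ws.getD k 0) : ℤ) := by exact_mod_cast u2
      have w3 : ((ws.getD k 0 : ℤ) : ℝ) + n0 * 120000 + 1 ≤ r0 * P := by exact_mod_cast u3
      have w4 : (x : ℝ) ≤ s := by exact_mod_cast u4
      have w5 : (t : ℝ) ≤ P := by exact_mod_cast u5
      have w6 : (0 : ℝ) ≤ 240000 - P - R.d * Z + (R.d + 1) * x + (R.d - 1) * (s - x) - R.del := by
        exact_mod_cast u6
      refine ⟨⟨(ws.getD k 0 : ℤ) / 120000, by linarith, ?_, by linarith⟩, by linarith, by linarith,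
        ?_, ?_⟩
      · rw [e0, lhs2_eq]; linarith
      · simp only [Rg.l0, hZ, hdel, hdd]; linarith
      · rcases u7 with u7 | u7
        · exact Or.inl u7
        · right
          have w7 : (s : ℝ) ≤ 240000 - P - R.d * Z + (R.d + 1) * x + (R.d - 1) * (s - x) - R.del +
            Z - x := by exact_mod_cast u7
          simp only [Rg.l1, Rg.l0, hZ, hdel, hdd]; linarith
  obtain ⟨s1, s2, -, s4, s5⟩ := side _ hR.x1z le_rfl
  refine ⟨s4, s1, s5, fun t t0 t1 m2 n2 r2 a1 a2 a3 a4 a5 a6 a7 => ?_⟩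
  obtain ⟨-, -, s3, -, -⟩ := side t t0 t1
  have fit : ∀ (sv : Bool) (g10 m3 n3 r3 : ℕ) (l : ℝ), m3 ≤ m2 → n3 ≤ n2 → r2 ≤ r3 →
      l = R.toRg.l0 P x1 x2 + (if sv then R.toRg.Z P - x1 else 0) - g10 / 120000 →
      cs.any (fun c => c.fit sv g10 m3 n3 r3) = true →
      Cov R.d M m2 n2 r2 (1 / 120000) P x1 x2 t l (pen0 m2 n2 r2 P x1 x2 t) := by
    intro sv g10 m3 n3 r3 l b1 b2 b3 hl h
    obtain ⟨c, hc, h⟩ := List.any_eq_true.mp h
    simp only [CZ.fit, Bool.and_eq_true, decide_eq_true_eq, beq_iff_eq] at h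
    obtain ⟨⟨⟨e1, e2⟩, e3⟩, e4, e5, e6⟩ := h
    exact c.ok_sound R M (h2 c hc) hR hn t0 t1 (by omega) (by omega) (by omega)
      (by rw [hl, CZ.lR, e1, e2]) (pen0_le c e3 (by omega) (by omega) (by omega) s2 s3)
  have fit3 : ∀ (sv : Bool) (g10 glo : ℕ) (l pen : ℝ),
      l = R.toRg.l0 P x1 x2 + (if sv then R.toRg.Z P - x1 else 0) - g10 / 120000 →
      pen = 2 * P - 2 - 4 * x2 - glo / 120000 →
      cs.any (fun c => c.fit3 sv g10 glo) = true →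
      Cov R.d M 4 2 2 (1 / 120000) P x1 x2 t l pen := by
    intro sv g10 glo l pen hl hp h
    obtain ⟨c, hc, h⟩ := List.any_eq_true.mp h
    simp only [CZ.fit3, Bool.and_eq_true, decide_eq_true_eq, beq_iff_eq] at h
    obtain ⟨⟨⟨⟨e1, e2⟩, e3⟩, e7⟩, e4, e5, e6⟩ := h
    exact c.ok_sound R M (h2 c hc) hR hn t0 t1 e4 e5 e6 (by rw [hl, CZ.lR, e1, e2])
      (by rw [hp, CZ.penR, if_neg (by omega), if_neg (by omega), e7])
  simp only [coverZ, Bool.and_eq_true, decide_eq_true_eq, List.all_eq_true, List.mem_range,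
    Bool.or_eq_true] at h3
  obtain ⟨⟨⟨c1, c2⟩, c3⟩, c4⟩ := h3
  rw [hdd] at a7 ⊢
  by_cases q1 : nm ≤ n2
  · exact Or.inl (fit false 0 1 nm m0 _ a1 q1 (by omega) (by simp) c2)
  by_cases q2 : mm ≤ m2
  · exact Or.inl (fit false 0 mm 1 m0 _ q2 a3 (by omega) (by simp) c3)
  have a8 := a7 (by omega)
  rcases c4 n2 (by omega) m2 (by omega) r2 (by omega) with c5 | c5
  · omega
  simp only [covZ, Bool.or_eq_true, Bool.and_eq_true, decide_eq_true_eq] at c5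
  rcases c5 with (c5 | ⟨⟨c5, c6⟩, c7⟩) | ⟨⟨⟨⟨⟨c5, rfl, rfl, rfl⟩, c6⟩, c7⟩, c8⟩, c9⟩
  · exact Or.inl (fit false 0 m2 n2 r2 _ le_rfl le_rfl le_rfl (by simp) c5)
  · refine Or.inr (Or.inl ⟨c5, ?_, fit true 0 m2 n2 r2 _ le_rfl le_rfl le_rfl
      (by simp [Rg.l1]; ring) c7⟩)
    obtain ⟨c, hc, h⟩ := List.any_eq_true.mp c6
    exact ⟨c, hc, by simpa using h⟩
  · refine Or.inr (Or.inr ⟨c5, rfl, rfl, rfl, fit true 8400 4 2 2 _ le_rfl le_rfl le_rfl ?_ c6,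
      fit3 true 13200 84000 _ _ ?_ ?_ c7, fit3 true 18000 132000 _ _ ?_ ?_ c8,
      fit3 false 0 180000 _ _ ?_ ?_ c9⟩)
    all_goals simp [Rg.l1, lev]
    all_goals ring

def okZ (R : RZ) : Bool :=
  decide ((R.d = 6 ∨ R.d = 7) ∧ 238800 ≤ R.P0 ∧ R.P0 < R.P1 ∧ R.P1 ≤ 360000 ∧ 0 < R.e0 ∧
    R.e0 ≤ 1200 ∧ 0 < R.del ∧ 36000 ≤ R.Z0 ∧ 36000 ≤ R.Z1 ∧ R.Z0 ≤ 63600 ∧ R.Z1 ≤ 63600 ∧
    R.P0 + 1200 ≤ R.d * R.Z0 ∧ R.P1 + 1200 ≤ R.d * R.Z1)

theorem ok_of (R : RZ) (h : okZ R = true) : R.toRg.Ok := by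
  simp only [okZ, decide_eq_true_eq] at h
  obtain ⟨a1, a2, a3, a4, a5, a6, a7, a8, a9, a10, a11, a12, a13⟩ := h
  have b2 : (238800 : ℝ) ≤ R.P0 := by exact_mod_cast a2
  have b3 : (R.P0 : ℝ) < R.P1 := by exact_mod_cast a3
  have b4 : (R.P1 : ℝ) ≤ 360000 := by exact_mod_cast a4
  have b5 : (0 : ℝ) < R.e0 := by exact_mod_cast a5
  have b6 : (R.e0 : ℝ) ≤ 1200 := by exact_mod_cast a6
  have b7 : (0 : ℝ) < R.del := by exact_mod_cast a7
  have b8 : (36000 : ℝ) ≤ R.Z0 := by exact_mod_cast a8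
  have b9 : (36000 : ℝ) ≤ R.Z1 := by exact_mod_cast a9
  have b10 : (R.Z0 : ℝ) ≤ 63600 := by exact_mod_cast a10
  have b11 : (R.Z1 : ℝ) ≤ 63600 := by exact_mod_cast a11
  have b12 : (R.P0 : ℝ) + 1200 ≤ R.d * R.Z0 := by exact_mod_cast a12
  have b13 : (R.P1 : ℝ) + 1200 ≤ R.d * R.Z1 := by exact_mod_cast a13
  refine ⟨a1, ?_, ?_, ?_, ?_, ?_, fun P p0 p1 => ?_⟩
  · show _ ≤ (R.P0 : ℝ) / 120000
    linarith
  · show (R.P1 : ℝ) / 120000 ≤ _
    linarith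
  · show _ < (R.e0 : ℝ) / 120000
    linarith
  · show (R.e0 : ℝ) / 120000 ≤ _
    linarith
  · show _ < (R.del : ℝ) / 120000
    linarith
  · have hG : Cvx (fun P s _ _ => 3 / 10 ≤ s ∧ s ≤ 53 / 100 ∧ P + 1 / 100 ≤ R.d * s) := by
      rintro P s x t P' s' x' t' a a0 a1 ⟨u1, u2, u3⟩ ⟨v1, v2, v3⟩
      exact ⟨by nlinarith, by nlinarith, by nlinarith⟩
    have e0 : R.toRg.al + R.toRg.be * R.toRg.P0 = R.Z0 / 120000 := R.Z_P0
    have e1 : R.toRg.al + R.toRg.be * R.toRg.P1 = R.Z1 / 120000 := R.Z_P1 a3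
    have f0 : R.toRg.P0 = R.P0 / 120000 := rfl
    have f1 : R.toRg.P1 = R.P1 / 120000 := rfl
    have := hG.seg p0 p1 0 1 R.toRg.al R.toRg.be 0 0 0 0
      (by rw [e0, f0]; exact ⟨by linarith, by linarith, by linarith⟩)
      (by rw [e1, f1]; exact ⟨by linarith, by linarith, by linarith⟩)
    have hdd : R.toRg.d = R.d := rfl
    simpa [Rg.Z, hdd] using this

end Pool.Agent.MP_542436_nt.Sp
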