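import Mathlib
import Pool.Agent.MP_542436_nt.H5.Defs

set_option autoImplicit false

namespace Pool.Agent.MP_542436_nt.Sp

open Polynomial NumberField Finset

/-! Bivariate polynomials: the inner variable is `s`, the outer variable is `t`. -/

/-- The coefficient of `s ^ i * t ^ k`. -/
noncomputable def cf {R : Type} [CommRing R] (f : R[X][X]) (i k : ℕ) : R := (f.coeff k).coeff i

/-- Degree `< M` in `s` and `< N` in `t`. -/
def Dg {R : Type} [CommRing R] (M N : ℕ) (f : R[X][X]) : Prop :=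
  ∀ i k, cf f i k ≠ 0 → i < M ∧ k < N

/-- The degree in `s`. -/
noncomputable def dS {R : Type} [CommRing R] (f : R[X][X]) : ℕ :=
  f.support.sup (fun k => (f.coeff k).natDegree)

/-- The derivative with respect to `s`. -/
noncomputable def ds {R : Type} [CommRing R] (f : R[X][X]) : R[X][X] :=
  f.sum (fun k a => monomial k (derivative a))

/-- Weighted order at least `r` at `(ω, θ)`, where `s - ω` has weight 1 and `t - θ` weight 2. -/
def Ord {R : Type} [CommRing R] (ω θ : R) (r : ℕ) (f : R[X][X]) : Prop :=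
  ∀ j, (X - C ω) ^ (r - 2 * j) ∣ (taylor (C θ) f).coeff j

/-- The Taylor coefficient of `(s - ω) ^ i * (t - θ) ^ j`. -/
noncomputable def tc {R : Type} [CommRing R] (M N : ℕ) (ω θ : R) (f : R[X][X]) (i j : ℕ) : R :=
  ∑ a ∈ range M, ∑ c ∈ range N,
    cf f a c * ((a.choose i : R) * ω ^ (a - i)) * ((c.choose j : R) * θ ^ (c - j))

/-- An integer polynomial seen over `L`. -/
noncomputable def up (L : Type) [CommRing L] (f : ℤ[X][X]) : L[X][X] :=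
  f.map (mapRingHom (Int.castRingHom L))

/-- The bihomogeneous value at `s = x / y`, `t = a / b`. -/
noncomputable def hval (m n : ℕ) (f : ℤ[X][X]) (x y a b : ℤ) : ℤ :=
  ∑ i ∈ range (m + 1), ∑ k ∈ range (n + 1), cf f i k * (x ^ i * y ^ (m - i)) * (a ^ k * b ^ (n - k))

/-- Weighted bound for the coefficients. -/
def Nb (m : ℕ) (A B W : ℝ) (f : ℤ[X][X]) : Prop :=
  ∀ i k, i ≤ m → |((cf f i k : ℤ) : ℝ)| * A ^ i * B ^ (m - i) ≤ W

/-- Polynomials of bounded degree with prescribed orders at finitely many points. -/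
def Vs {ι : Type} (M N : ℕ) (r : ι → ℕ) (ω θ : ι → ℂ) : Submodule ℂ ℂ[X][X] where
  carrier := {f | Dg M N f ∧ ∀ i, Ord (ω i) (θ i) (r i) f}
  add_mem' := by
    rintro f g ⟨h1, h2⟩ ⟨h3, h4⟩
    refine ⟨fun i k h => ?_, fun i j => ?_⟩
    · by_cases hf : cf f i k = 0
      · apply h3 i k
        intro hg
        apply h
        simp only [cf, coeff_add] at *
        rw [hf, hg, add_zero]
      · exact h1 i k hf
    · rw [map_add, coeff_add]
      exact dvd_add (h2 i j) (h4 i j)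
  zero_mem' := ⟨fun i k h => absurd (by simp [cf]) h, fun i j => by simp⟩
  smul_mem' := by
    rintro c f ⟨h1, h2⟩
    refine ⟨fun i k h => h1 i k fun hf => h ?_, fun i j => ?_⟩
    · simp only [cf, coeff_smul] at *
      rw [hf, smul_zero]
    · have : c • f = (C c : ℂ[X]) • f := by
        ext k i
        simp
      rw [this, map_smul, coeff_smul, smul_eq_mul]
      exact Dvd.dvd.mul_left (h2 i j) _

/-- Upper bound for the dimension of the space of polynomials with order `r` at `d` points with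
distinct coordinates (the first argument is fuel). -/
def capF (d : ℕ) : ℕ → ℕ → ℕ → ℕ → ℕ
  | 0, M, N, _ => M * N
  | k + 1, M, N, r =>
    min (M * N) (if M - r ≤ N - (r + 1) / 2 then d * (M - r) + capF d k M (N - d) (r - 2)
      else d * (N - (r + 1) / 2) + capF d k (M - d) N (r - 1))

/-- The dimension bound. -/
def capG (d M N r : ℕ) : ℕ := capF d r M N r

/-- Expected rank of the lattice of auxiliary polynomials. -/
noncomputable def rho (d m n r : ℕ) : ℝ :=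
  ((m + 1) * (n + 1) : ℕ) - (d * ∑ j ∈ range r, (r - 2 * j) : ℕ)

/-- Exponent of the determinant of the lattice of auxiliary polynomials. -/
noncomputable def cee (d m r : ℕ) : ℝ :=
  (d * ∑ j ∈ range r, (r - 2 * j) * (m + 1 - (r - 2 * j)) : ℕ)

/-- Exponent of the number of small auxiliary polynomials. -/
noncomputable def lhs (d m n r : ℕ) (x1 x2 t w : ℝ) : ℝ :=
  rho d m n r * (w - m * ((x1 + x2) / 2)) - cee d m r * (t - (x1 + x2) / 2)

/-- The numerical inequality of the filtration argument. -/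
def Good (d m n r m' n' r' : ℕ) (η P x1 x2 t l pen : ℝ) : Prop :=
  ∃ (w : ℝ) (μ : ℕ → ℝ), (∀ j, 0 ≤ μ j) ∧ m * x1 ≤ w ∧ ∀ N : ℕ,
    ∑ j ∈ range (min (m / m') (n / n') + 1), ∑ i ∈ range N,
        max 0 (w + n - r * P + j * pen - ∑ k ∈ range (j + 1), μ k - i * l) +
      ∑ j ∈ range (min (m / m') (n / n') + 1),
        μ j * capG d (m + 1 - j * m') (n + 1 - j * n') (r - j * r') + η ≤ lhs d m n r x1 x2 t w

/-- The numerical inequality of the top level. -/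
def Top (d m n r : ℕ) (η P x1 x2 t : ℝ) : Prop :=
  ∃ w : ℝ, m * x1 ≤ w ∧ η ≤ lhs d m n r x1 x2 t w ∧ w + n + η ≤ r * P

/-! Number fields, places, incidences. -/

/-- `ω` has as many conjugates as there are embeddings. -/
def Gen {K : Type} [Field K] (ω : K) : Prop := Function.Injective (fun σ : K →+* ℂ => σ ω)

/-- `θ` is an integral primitive element of a field of degree `d`. -/
structure St {K : Type} [Field K] [NumberField K] (d : ℕ) (θ : K) : Prop where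
  int : IsIntegral ℤ θ
  rk : Module.finrank ℚ K = d
  gen : Gen θ
  six : 6 ≤ d

/-- The element with coordinates `c` in the power basis. -/
noncomputable def el {K : Type} [Field K] {d : ℕ} (θ : K) (c : Fin d → ℤ) : K :=
  ∑ i, (c i : K) * θ ^ (i : ℕ)

/-- A place above `p`, normalised by `v p = 1 / p`. -/
structure Plc {K : Type} [Field K] (p : ℕ) (v : AbsoluteValue K ℝ) : Prop where
  prime : p.Prime
  na : IsNonarchimedean v
  vp : v (p : K) = 1 / (p : ℝ)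

/-- A point with its place. -/
structure Pt (K : Type) [Field K] where
  x : ℤ
  y : ℤ
  a : ℤ
  b : ℤ
  p : ℕ
  v : AbsoluteValue K ℝ

/-- The value of `f` at the point. -/
noncomputable def Pt.val {K : Type} [Field K] (Q : Pt K) (m n : ℕ) (f : ℤ[X][X]) : ℤ :=
  hval m n f Q.x Q.y Q.a Q.b

/-- `(a, b)` is primitive of size at most `X` and the square of the place divides `a - θ b`. -/
structure Sq {K : Type} [Field K] (θ : K) (X : ℝ) (a b : ℤ) (p : ℕ) (v : AbsoluteValue K ℝ) :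
    Prop where
  plc : Plc p v
  cop : Int.gcd a b = 1
  ha : |(a : ℝ)| ≤ X
  hb : |(b : ℝ)| ≤ X
  vt : v ((a : K) - θ * b) ≤ 1 / (p : ℝ) ^ 2

/-- An incidence. -/
structure Inc {K : Type} [Field K] (θ ω : K) (X A B p0 : ℝ) (Q : Pt K) : Prop where
  sq : Sq θ X Q.a Q.b Q.p Q.v
  p0 : p0 ≤ Q.p
  cop : Int.gcd Q.x Q.y = 1
  hx : |(Q.x : ℝ)| ≤ A
  hy : |(Q.y : ℝ)| ≤ B
  y0 : Q.y ≠ 0
  b0 : Q.b ≠ 0
  vω : Q.v ω ≤ 1
  vs : Q.v ((Q.x : K) - ω * Q.y) ≤ 1 / (Q.p : ℝ)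
  vs' : 1 / (Q.p : ℝ) ^ 2 < Q.v ((Q.x : K) - ω * Q.y)

/-- At most `N` pairs `(a, b)` occur in a point with property `H`. -/
def FewPt {K : Type} [Field K] (H : Pt K → Prop) (N : ℝ) : Prop :=
  ∀ E : Finset (ℤ × ℤ), (∀ e ∈ E, ∃ Q : Pt K, H Q ∧ (Q.a, Q.b) = e) → (E.card : ℝ) ≤ N

/-- `ω = - ζ1 / ζ0` with weighted size at most `T`. -/
structure Rep {K : Type} [Field K] [NumberField K] (ω : K) (A B T : ℝ) (ζ0 ζ1 : K) : Prop where
  i0 : IsIntegral ℤ ζ0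
  i1 : IsIntegral ℤ ζ1
  ne : ζ0 ≠ 0
  eq : ω = -ζ1 / ζ0
  h0 : house ζ0 * A ≤ T
  h1 : house ζ1 * B ≤ T

/-- Classes of curves that do not exist for a generic `ω` in degree 7. -/
def list0 : List (ℕ × ℕ × ℕ) := [(6, 1, 2), (3, 2, 2), (7, 2, 3), (6, 3, 3), (8, 3, 4), (7, 4, 4)]

/-- First exceptional set. -/
def Bad0 {K : Type} [Field K] (d : ℕ) (θ ω : K) : Prop :=
  ¬ Gen ω ∨ (d = 7 ∧ ∃ c ∈ list0, ∃ f : ℤ[X][X], f ≠ 0 ∧ Dg (c.1 + 1) (c.2.1 + 1) f ∧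
    Ord ω θ c.2.2 (up K f))

/-- Second exceptional set: a curve of bidegree `(4, 2)` and order 2 with small coefficients. -/
def Bad1 {K : Type} [Field K] (d : ℕ) (θ ω : K) (G : ℝ) : Prop :=
  d = 7 ∧ ∃ g : ℤ[X][X], (∀ κ : ℤ, (∀ i k, κ ∣ cf g i k) → IsUnit κ) ∧ Dg 5 3 g ∧
    Ord ω θ 2 (up K g) ∧ ∀ i k, |((cf g i k : ℤ) : ℝ)| ≤ G

/-- Pairs of vectors of sizes `N0`, `N1`, the second one reduced in coordinate `i0`. -/
noncomputable def pbox (d : ℕ) (i0 : Fin d) (N0 N1 : ℕ) : Finset (Fin 2 × Fin d → ℤ) :=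
  Fintype.piFinset (fun k => if k.1 = 0 ∨ k.2 = i0 then Icc (-(N0 : ℤ)) N0 else Icc (-(N1 : ℤ)) N1)

/-- The first vector of a pair as an element of `K`. -/
noncomputable def z0 {K : Type} [Field K] {d : ℕ} (θ : K) (u : Fin 2 × Fin d → ℤ) : K :=
  el θ (fun i => u (0, i))

/-- The second vector of a pair as an element of `K`. -/
noncomputable def z1 {K : Type} [Field K] {d : ℕ} (θ : K) (u : Fin 2 × Fin d → ℤ) : K :=
  el θ (fun i => u (1, i))

/-- The slope of a pair. -/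
noncomputable def om {K : Type} [Field K] {d : ℕ} (θ : K) (u : Fin 2 × Fin d → ℤ) : K :=
  -z1 θ u / z0 θ u

/-- A range of exponents `P = log p / log X`; the box for `ξ` has exponent `Z = al + be * P`. -/
structure Rg where
  d : ℕ
  P0 : ℝ
  P1 : ℝ
  al : ℝ
  be : ℝ
  e0 : ℝ
  del : ℝ

/-- The exponent of the box. -/
def Rg.Z (R : Rg) (P : ℝ) : ℝ := R.al + R.be * P

/-- The budget. -/
def Rg.l0 (R : Rg) (P x1 x2 : ℝ) : ℝ :=
  2 - P - R.d * R.Z P + (R.d + 1) * x1 + (R.d - 1) * x2 - R.del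

/-- The budget on exceptional lines. -/
noncomputable def Rg.l1 (R : Rg) (P x1 x2 g : ℝ) : ℝ := R.l0 P x1 x2 + R.Z P - x1 - g / 10

/-- Admissible exponents. -/
structure Rg.Reg (R : Rg) (P x1 x2 : ℝ) : Prop where
  p0 : R.P0 ≤ P
  p1 : P ≤ R.P1
  x21 : x2 ≤ x1
  x1z : x1 ≤ R.Z P + R.e0
  s0 : R.d * R.Z P ≤ (R.d - 1) * (x1 + x2)

/-- Simple numerical conditions on a range. -/
structure Rg.Ok (R : Rg) : Prop where
  d : R.d = 6 ∨ R.d = 7
  P0 : 199 / 100 ≤ R.P0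
  P1 : R.P1 ≤ 3
  e0 : 0 < R.e0
  e1 : R.e0 ≤ 1 / 100
  del : 0 < R.del
  Z : ∀ P, R.P0 ≤ P → P ≤ R.P1 → 3 / 10 ≤ R.Z P ∧ R.Z P ≤ 53 / 100 ∧ P + 1 / 100 ≤ R.d * R.Z P

/-- The three thresholds for the coefficients of curves of bidegree `(4, 2)`. -/
noncomputable def lev : Fin 3 → ℝ := ![7 / 10, 11 / 10, 3 / 2]

/-- Some certificate of size at most `M` covers the class `(m2, n2, r2)`. -/
def Cov (d M m2 n2 r2 : ℕ) (η P x1 x2 t l pen : ℝ) : Prop :=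
  1 / 20 ≤ l ∧ l ≤ 7 / 5 ∧ ∃ m n r m' n' r' : ℕ, m ≤ M ∧ n ≤ M ∧ m' ≤ M ∧ n' ≤ M ∧ r' ≤ M ∧ r ≤ m ∧
    1 ≤ m' ∧ m' ≤ m2 ∧ 1 ≤ n' ∧ n' ≤ n2 ∧ r2 ≤ r' ∧ Good d m n r m' n' r' η P x1 x2 t l pen

/-- The better of the two unconditional penalties. -/
noncomputable def pen0 (m2 n2 r2 : ℕ) (P x1 x2 t : ℝ) : ℝ :=
  min (P - x1) (r2 * P - n2 - r2 * t - ((m2 : ℝ) - r2) * x2)

/-- All numerical inequalities needed for a range. -/
def Cert (R : Rg) : Prop :=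
  ∃ (η : ℝ) (M m0 n0 r0 : ℕ), 0 < η ∧ r0 ≤ m0 ∧ ∀ P x1 x2 : ℝ, R.Reg P x1 x2 →
    x1 + x2 ≤ R.l0 P x1 x2 ∨
    (0 ≤ R.l0 P x1 x2 ∧ Top R.d m0 n0 r0 η P x1 x2 (R.Z P + R.e0) ∧ (R.d = 7 ∨ x1 + x2 ≤ R.l1 P x1 x2 0) ∧
      ∀ t : ℝ, x1 ≤ t → t ≤ R.Z P + R.e0 → ∀ m2 n2 r2 : ℕ, 1 ≤ m2 → m2 ≤ m0 → 1 ≤ n2 → 2 ≤ r2 →
        r2 ≤ m2 → r2 ≤ 2 * n2 → (n2 ≤ 5 → R.d * (r2 * (r2 - 1)) ≤ 4 * ((m2 - 1) * n2)) →
        Cov R.d M m2 n2 r2 η P x1 x2 t (R.l0 P x1 x2) (pen0 m2 n2 r2 P x1 x2 t) ∨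
        (R.d = 7 ∧ (∃ c ∈ list0, m2 ≤ c.1 ∧ n2 ≤ c.2.1 ∧ c.2.2 ≤ r2) ∧
          Cov R.d M m2 n2 r2 η P x1 x2 t (R.l1 P x1 x2 0) (pen0 m2 n2 r2 P x1 x2 t)) ∨
        (R.d = 7 ∧ m2 = 4 ∧ n2 = 2 ∧ r2 = 2 ∧
          Cov R.d M 4 2 2 η P x1 x2 t (R.l1 P x1 x2 (lev 0)) (pen0 4 2 2 P x1 x2 t) ∧
          Cov R.d M 4 2 2 η P x1 x2 t (R.l1 P x1 x2 (lev 1)) (2 * P - 2 - 4 * x2 - lev 0) ∧
          Cov R.d M 4 2 2 η P x1 x2 t (R.l1 P x1 x2 (lev 2)) (2 * P - 2 - 4 * x2 - lev 1) ∧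
          Cov R.d M 4 2 2 η P x1 x2 t (R.l0 P x1 x2) (2 * P - 2 - 4 * x2 - lev 2)))

end Pool.Agent.MP_542436_nt.Sp
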